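import Mathlib

set_option autoImplicit false

namespace Pool.Agent.Q277.DDs

open intervalIntegral MeasureTheory Set

/-- the state functions of permutations without double descents -/
noncomputable def st : ℕ → (ℝ → ℝ) × (ℝ → ℝ)
  | 0 => (fun _ => 1, fun _ => 0)
  | m + 1 => (fun x => ∫ t in (0:ℝ)..x, ((st m).1 t + (st m).2 t),
      fun x => ∫ t in x..(1:ℝ), (st m).1 t)

noncomputable def u (m : ℕ) : ℝ → ℝ := (st m).1
noncomputable def v (m : ℕ) : ℝ → ℝ := (st m).2

/-- the pairing -/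
noncomputable def TT (p q : ℕ) : ℝ := ∫ x in (0:ℝ)..1, v p x * v q (1 - x)

theorem cont_right {F : ℝ → ℝ} (hF : Continuous F) :
    Continuous (fun x => ∫ t in (0:ℝ)..x, F t) := by
  refine continuous_iff_continuousAt.2 (fun x => ?_)
  exact ((hF.integral_hasStrictDerivAt 0 x).hasDerivAt).continuousAt

theorem der_right {F : ℝ → ℝ} (hF : Continuous F) (a x : ℝ) :
    HasDerivAt (fun x => ∫ t in a..x, F t) (F x) x :=
  (hF.integral_hasStrictDerivAt a x).hasDerivAt

theorem der_left {F : ℝ → ℝ} (hF : Continuous F) (b x : ℝ) :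
    HasDerivAt (fun x => ∫ t in x..b, F t) (-F x) x := by
  have h : (fun x => ∫ t in x..b, F t) = fun x => -∫ t in b..x, F t := by
    funext y; rw [intervalIntegral.integral_symm]
  rw [h]; exact (der_right hF b x).neg

theorem cont_left {F : ℝ → ℝ} (hF : Continuous F) (b : ℝ) :
    Continuous (fun x => ∫ t in x..b, F t) := by
  refine continuous_iff_continuousAt.2 (fun x => ?_)
  exact (der_left hF b x).continuousAt

theorem st_cont (m : ℕ) : Continuous (st m).1 ∧ Continuous (st m).2 := by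
  induction m with
  | zero => exact ⟨continuous_const, continuous_const⟩
  | succ m ih => exact ⟨cont_right (ih.1.add ih.2), cont_left ih.1 1⟩

theorem u_cont (m : ℕ) : Continuous (u m) := (st_cont m).1
theorem v_cont (m : ℕ) : Continuous (v m) := (st_cont m).2

theorem u_zero : u 0 = fun _ => 1 := rfl
theorem v_zero : v 0 = fun _ => 0 := rfl
theorem u_succ (m : ℕ) (x : ℝ) : u (m + 1) x = ∫ t in (0:ℝ)..x, (u m t + v m t) := rfl
theorem v_succ (m : ℕ) (x : ℝ) : v (m + 1) x = ∫ t in x..(1:ℝ), u m t := rfl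

theorem u_der (m : ℕ) (x : ℝ) : HasDerivAt (u (m + 1)) (u m x + v m x) x :=
  der_right ((u_cont m).add (v_cont m)) 0 x
theorem v_der (m : ℕ) (x : ℝ) : HasDerivAt (v (m + 1)) (-u m x) x :=
  der_left (u_cont m) 1 x

theorem u_at_zero (m : ℕ) : u (m + 1) 0 = 0 := by rw [u_succ, integral_same]
theorem v_at_one (m : ℕ) : v m 1 = 0 := by
  cases m with
  | zero => rfl
  | succ m => rw [v_succ, integral_same]

theorem ii {F : ℝ → ℝ} (hF : Continuous F) (a b : ℝ) : IntervalIntegrable F volume a b :=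
  hF.intervalIntegrable a b

/-- the swap lemma -/
theorem swap {F g : ℝ → ℝ} (hF : Continuous F) (hg : Continuous g) :
    (∫ x in (0:ℝ)..1, F x * ∫ t in x..(1:ℝ), g t) =
      ∫ x in (0:ℝ)..1, g x * ∫ t in (0:ℝ)..x, F t := by
  have h1 : ∀ x ∈ uIcc (0:ℝ) 1, HasDerivAt (fun x => (∫ t in (0:ℝ)..x, F t) * ∫ t in x..(1:ℝ), g t)
      (F x * (∫ t in x..(1:ℝ), g t) + (∫ t in (0:ℝ)..x, F t) * (-g x)) x := by
    intro x _
    exact (der_right hF 0 x).mul (der_left hg 1 x)
  have hc : Continuous (fun x => F x * (∫ t in x..(1:ℝ), g t) +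
      (∫ t in (0:ℝ)..x, F t) * (-g x)) :=
    (hF.mul (cont_left hg 1)).add ((cont_right hF).mul hg.neg)
  have h2 := integral_eq_sub_of_hasDerivAt h1 (ii hc 0 1)
  simp only [integral_same, mul_zero, zero_mul, sub_zero] at h2
  have hadd : (∫ y in (0:ℝ)..1, ((F y * ∫ t in y..(1:ℝ), g t) + (∫ t in (0:ℝ)..y, F t) * -g y)) =
      (∫ y in (0:ℝ)..1, (F y * ∫ t in y..(1:ℝ), g t)) +
        ∫ y in (0:ℝ)..1, (∫ t in (0:ℝ)..y, F t) * -g y :=
    integral_add (ii (hF.mul (cont_left hg 1)) 0 1) (ii ((cont_right hF).mul hg.neg) 0 1)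
  rw [hadd] at h2
  have h3 : (∫ x in (0:ℝ)..1, (∫ t in (0:ℝ)..x, F t) * (-g x)) =
      -∫ x in (0:ℝ)..1, g x * ∫ t in (0:ℝ)..x, F t := by
    rw [← intervalIntegral.integral_neg]
    congr 1; funext x; ring
  rw [h3] at h2
  linarith

/-- reflection -/
theorem refl01 (F : ℝ → ℝ) : (∫ x in (0:ℝ)..1, F (1 - x)) = ∫ x in (0:ℝ)..1, F x := by
  rw [intervalIntegral.integral_comp_sub_left (fun x => F x) (1:ℝ)]
  norm_num

theorem TT_symm (p q : ℕ) : TT p q = TT q p := by
  unfold TT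
  rw [← refl01 (fun x => v p x * v q (1 - x))]
  congr 1; funext x
  simp only [sub_sub_cancel]
  ring

/-- integral over [0,x] of the reflected function -/
theorem refl_right (F : ℝ → ℝ) (x : ℝ) :
    (∫ t in (0:ℝ)..x, F (1 - t)) = ∫ t in (1 - x)..(1:ℝ), F t := by
  rw [intervalIntegral.integral_comp_sub_left (fun x => F x) (1:ℝ)]
  norm_num

theorem refl_left (F : ℝ → ℝ) (x : ℝ) :
    (∫ t in x..(1:ℝ), F (1 - t)) = ∫ t in (0:ℝ)..(1 - x), F t := by
  rw [intervalIntegral.integral_comp_sub_left (fun x => F x) (1:ℝ)]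
  norm_num

/-- positivity on [0,1] -/
theorem st_nonneg (m : ℕ) : ∀ x ∈ Icc (0:ℝ) 1, 0 ≤ u m x ∧ 0 ≤ v m x := by
  induction m with
  | zero => intro x _; rw [u_zero, v_zero]; exact ⟨zero_le_one, le_refl 0⟩
  | succ m ih =>
    intro x hx
    constructor
    · rw [u_succ]
      refine integral_nonneg hx.1 (fun t ht => ?_)
      have := ih t ⟨ht.1, ht.2.trans hx.2⟩
      linarith [this.1, this.2]
    · rw [v_succ]
      refine integral_nonneg hx.2 (fun t ht => ?_)
      exact (ih t ⟨hx.1.trans ht.1, ht.2⟩).1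

end Pool.Agent.Q277.DDs
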