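import Pool.Agent.Q277.DDs.Eig

set_option autoImplicit false

namespace Pool.Agent.Q277.DDs

open intervalIntegral MeasureTheory Set Real

theorem int_mono {f g : ℝ → ℝ} (hf : Continuous f) (hg : Continuous g)
    (h : ∀ x ∈ Icc (0:ℝ) 1, f x ≤ g x) : (∫ x in (0:ℝ)..1, f x) ≤ ∫ x in (0:ℝ)..1, g x :=
  integral_mono_on zero_le_one (ii hf 0 1) (ii hg 0 1) h

theorem int_add {f g : ℝ → ℝ} (hf : Continuous f) (hg : Continuous g) (a b : ℝ) :
    (∫ x in a..b, (f x + g x)) = (∫ x in a..b, f x) + ∫ x in a..b, g x :=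
  integral_add (ii hf a b) (ii hg a b)

theorem int_sub {f g : ℝ → ℝ} (hf : Continuous f) (hg : Continuous g) (a b : ℝ) :
    (∫ x in a..b, (f x - g x)) = (∫ x in a..b, f x) - ∫ x in a..b, g x :=
  integral_sub (ii hf a b) (ii hg a b)

/-- first comparison constant -/
noncomputable def c0 : ℝ := 385 / 1000

theorem pe_c0 : (11 / 10) * pe c0 < 1 := by
  unfold pe c0
  have h1 := rho_sq_gt
  have h2 := rho_sq_lt
  have h3 := rho_lt
  have h4 := rho_gt
  have h5 : rho ^ 3 ≤ 1.46218 * 1.20921 := by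
    have : rho ^ 3 = rho ^ 2 * rho := by ring
    rw [this]
    exact mul_le_mul h2.le h3.le rho_pos.le (by norm_num)
  nlinarith

theorem pe_anti {x y : ℝ} (hx : 0 ≤ x) (hxy : x ≤ y) (hy : y ≤ 1) : pe y ≤ pe x := by
  unfold pe
  have h := rho_pos
  have h3 := rho_lt
  have e : (1 - rho ^ 2 * x ^ 2 / 2 + rho ^ 3 * x ^ 3 / 6) - (1 - rho ^ 2 * y ^ 2 / 2 + rho ^ 3 * y ^ 3 / 6)
      = rho ^ 2 / 6 * ((y - x) * (3 * (x + y) - rho * (x ^ 2 + x * y + y ^ 2))) := by ring
  have hx1 : x ≤ 1 := hxy.trans hy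
  have hy0 : 0 ≤ y := hx.trans hxy
  have k1 : x ^ 2 + x * y + y ^ 2 ≤ x + x + y := by nlinarith
  have k2 : rho * (x ^ 2 + x * y + y ^ 2) ≤ 3 * (x + y) := by nlinarith [mul_nonneg hx hy0, sq_nonneg x, sq_nonneg y]
  have : 0 ≤ rho ^ 2 / 6 * ((y - x) * (3 * (x + y) - rho * (x ^ 2 + x * y + y ^ 2))) := by
    apply mul_nonneg (by positivity)
    exact mul_nonneg (by linarith) (by linarith)
  linarith

theorem int_pe : (∫ x in (0:ℝ)..1, pe x * (1 - x)) = 1 / 2 - rho ^ 2 / 24 + rho ^ 3 / 120 := by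
  have h : ∀ x ∈ uIcc (0:ℝ) 1, HasDerivAt (fun x => x - x ^ 2 / 2 - rho ^ 2 / 2 * (x ^ 3 / 3 - x ^ 4 / 4) +
      rho ^ 3 / 6 * (x ^ 4 / 4 - x ^ 5 / 5)) (pe x * (1 - x)) x := by
    intro x _
    have e2 : HasDerivAt (fun x : ℝ => x ^ 2 / 2) x x := by
      simpa using (hasDerivAt_pow 2 x).div_const 2
    have e3 : HasDerivAt (fun x : ℝ => x ^ 3 / 3) (x ^ 2) x := by
      simpa using (hasDerivAt_pow 3 x).div_const 3
    have e4 : HasDerivAt (fun x : ℝ => x ^ 4 / 4) (x ^ 3) x := by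
      simpa using (hasDerivAt_pow 4 x).div_const 4
    have e5 : HasDerivAt (fun x : ℝ => x ^ 5 / 5) (x ^ 4) x := by
      simpa using (hasDerivAt_pow 5 x).div_const 5
    have := (((hasDerivAt_id x).sub e2).sub ((e3.sub e4).const_mul (rho ^ 2 / 2))).add
      ((e4.sub e5).const_mul (rho ^ 3 / 6))
    have e : pe x * (1 - x) = 1 - x - rho ^ 2 / 2 * (x ^ 2 - x ^ 3) + rho ^ 3 / 6 * (x ^ 3 - x ^ 4) := by
      unfold pe; ring
    rw [e]; exact this
  rw [integral_eq_sub_of_hasDerivAt h (ii (pe_cont.mul (continuous_const.sub continuous_id)) 0 1)]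
  ring

/-- (I1) -/
theorem I1 {f : ℝ → ℝ} (hf : Continuous f) (hc : ConcaveOn ℝ (Icc (0:ℝ) 1) f)
    (h0 : ∀ x ∈ Icc (0:ℝ) 1, 0 ≤ f x) :
    (∫ x in (0:ℝ)..1, ue x * f x) ≤ pe c0 * ∫ x in (0:ℝ)..1, f x := by
  have hc0 : c0 ∈ Icc (0:ℝ) 1 := by unfold c0; constructor <;> norm_num
  have hc1 : (0:ℝ) < 1 - c0 := by unfold c0; norm_num
  have h11 : (1:ℝ) ∈ Icc (0:ℝ) 1 := right_mem_Icc.2 zero_le_one
  set A := f c0 / (1 - c0) with hA
  have hA0 : 0 ≤ A := div_nonneg (h0 c0 hc0) hc1.le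
  have hAe : A * (1 - c0) = f c0 := by rw [hA]; field_simp
  have key : ∀ x ∈ Icc (0:ℝ) 1, (pe c0 - pe x) * (A * (1 - x)) ≤ (pe c0 - pe x) * f x := by
    intro x hx
    rcases le_total x c0 with hxc | hxc
    · have h1 : pe c0 - pe x ≤ 0 := by linarith [pe_anti hx.1 hxc hc0.2]
      have hx1 : (0:ℝ) < 1 - x := by linarith
      have hconc := hc.2 hx h11 (show 0 ≤ (1 - c0) / (1 - x) by positivity)
        (show 0 ≤ (c0 - x) / (1 - x) from div_nonneg (by linarith) hx1.le)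
        (by field_simp; ring)
      have e : ((1 - c0) / (1 - x)) • x + ((c0 - x) / (1 - x)) • (1:ℝ) = c0 := by
        simp only [smul_eq_mul]; field_simp; ring
      rw [e] at hconc
      simp only [smul_eq_mul] at hconc
      have h2 : (1 - c0) / (1 - x) * f x ≤ f c0 := by
        have := mul_nonneg (div_nonneg (show 0 ≤ c0 - x by linarith) hx1.le) (h0 1 h11)
        linarith
      have h3 : f x ≤ A * (1 - x) := by
        rw [div_mul_eq_mul_div, div_le_iff₀ hx1] at h2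
        rw [hA, div_mul_eq_mul_div, le_div_iff₀ hc1]
        linarith
      nlinarith
    · have h1 : 0 ≤ pe c0 - pe x := by linarith [pe_anti hc0.1 hxc hx.2]
      have hconc := hc.2 hc0 h11 (show 0 ≤ (1 - x) / (1 - c0) from div_nonneg (by linarith [hx.2]) hc1.le)
        (show 0 ≤ (x - c0) / (1 - c0) from div_nonneg (by linarith) hc1.le)
        (by field_simp; ring)
      have e : ((1 - x) / (1 - c0)) • c0 + ((x - c0) / (1 - c0)) • (1:ℝ) = x := by
        simp only [smul_eq_mul]; field_simp; ring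
      rw [e] at hconc
      simp only [smul_eq_mul] at hconc
      have h2 : (1 - x) / (1 - c0) * f c0 ≤ f x := by
        have := mul_nonneg (div_nonneg (show 0 ≤ x - c0 by linarith) hc1.le) (h0 1 h11)
        linarith
      have h3 : A * (1 - x) ≤ f x := by
        have : A * (1 - x) = (1 - x) / (1 - c0) * f c0 := by rw [hA]; ring
        linarith
      exact mul_le_mul_of_nonneg_left h3 h1
  have c1 : Continuous (fun x => (pe c0 - pe x) * (A * (1 - x))) :=
    (continuous_const.sub pe_cont).mul (continuous_const.mul (continuous_const.sub continuous_id))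
  have c2 : Continuous (fun x => (pe c0 - pe x) * f x) := (continuous_const.sub pe_cont).mul hf
  have hm := int_mono c1 c2 key
  have e1 : (∫ x in (0:ℝ)..1, (pe c0 - pe x) * (A * (1 - x))) =
      A * (pe c0 / 2 - (1 / 2 - rho ^ 2 / 24 + rho ^ 3 / 120)) := by
    have : (fun x => (pe c0 - pe x) * (A * (1 - x))) = fun x => A * (pe c0 * (1 - x) - pe x * (1 - x)) := by
      funext x; ring
    rw [this, intervalIntegral.integral_const_mul,
      int_sub (f := fun x => pe c0 * (1 - x)) (g := fun x => pe x * (1 - x))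
        (continuous_const.mul (continuous_const.sub continuous_id))
        (pe_cont.mul (continuous_const.sub continuous_id)), int_pe,
      intervalIntegral.integral_const_mul]
    have : (∫ x in (0:ℝ)..1, (1 - x)) = 1 / 2 := by
      rw [intervalIntegral.integral_sub (by simp) (by simp)]
      norm_num
    rw [this]; ring
  have e2 : (∫ x in (0:ℝ)..1, (pe c0 - pe x) * f x) =
      pe c0 * (∫ x in (0:ℝ)..1, f x) - ∫ x in (0:ℝ)..1, pe x * f x := by
    have : (fun x => (pe c0 - pe x) * f x) = fun x => pe c0 * f x - pe x * f x := by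
      funext x; ring
    rw [this, int_sub (f := fun x => pe c0 * f x) (g := fun x => pe x * f x)
      (continuous_const.mul hf) (pe_cont.mul hf), intervalIntegral.integral_const_mul]
  have e3 : (∫ x in (0:ℝ)..1, ue x * f x) ≤ ∫ x in (0:ℝ)..1, pe x * f x :=
    int_mono (ue_cont.mul hf) (pe_cont.mul hf)
      (fun x hx => mul_le_mul_of_nonneg_right (ue_le_pe hx) (h0 x hx))
  have hnum : 0 ≤ pe c0 / 2 - (1 / 2 - rho ^ 2 / 24 + rho ^ 3 / 120) := by
    unfold pe c0
    have h3 := rho_lt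
    have : (1 - rho ^ 2 * (385 / 1000) ^ 2 / 2 + rho ^ 3 * (385 / 1000) ^ 3 / 6) / 2 -
        (1 / 2 - rho ^ 2 / 24 + rho ^ 3 / 120) =
        rho ^ 2 * ((1 / 24 - (385 / 1000) ^ 2 / 4) - rho * (1 / 120 - (385 / 1000) ^ 3 / 12)) := by ring
    rw [this]
    apply mul_nonneg (by positivity)
    nlinarith
  have := mul_nonneg hA0 hnum
  rw [e1, e2] at hm
  linarith

/-- the numerical comparison for (I2) -/
theorem num2 {s : ℝ} (hs : s ∈ Icc (0:ℝ) 1) :
    s * (583 / 10000 - 732 / 10000 * s) ≤ 11 / 10 * De s - (s - s ^ 2 / 2) := by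
  have hD := De_ge hs
  have r3 : 1.20916 ^ 3 ≤ rho ^ 3 := pow_le_pow_left₀ (by norm_num) rho_gt.le 3
  have r4 : rho ^ 4 ≤ 1.20921 ^ 4 := pow_le_pow_left₀ rho_pos.le rho_lt.le 4
  have r1 := rho_lt
  obtain ⟨h0, h1⟩ := hs
  have s3 : 0 ≤ s ^ 3 := by positivity
  have s4 : 0 ≤ s ^ 4 := by positivity
  have q : 0 ≤ 0.0417 - 0.091866 * s + 0.081027 * s ^ 3 - 0.019599 * s ^ 4 := by
    have t : 0 ≤ 0.0846 + 0.0535 * s - 0.0196 * s ^ 2 := by nlinarith
    nlinarith [mul_nonneg (sq_nonneg (s - 0.7)) t]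
  have k : 583 / 10000 - 732 / 10000 * s ≤
      11 / 10 * (1 - rho * s / 2 + rho ^ 3 * s ^ 3 / 24 - rho ^ 4 * s ^ 4 / 120) - (1 - s / 2) := by
    nlinarith [mul_le_mul_of_nonneg_right r1.le h0, mul_le_mul_of_nonneg_right r3 s3,
      mul_le_mul_of_nonneg_right r4 s4]
  have := mul_le_mul_of_nonneg_left k h0
  nlinarith

/-- (I2) -/
theorem I2 {V : ℝ → ℝ} (hV : Continuous V)
    (hs : ∀ x y, 0 ≤ x → x ≤ y → y ≤ 1 → V y * x ≤ V x * y)
    (h0 : ∀ x ∈ Icc (0:ℝ) 1, 0 ≤ V x) :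
    (∫ x in (0:ℝ)..1, V x * (x - x ^ 2 / 2)) ≤ 11 / 10 * ∫ x in (0:ℝ)..1, V x * De x := by
  set c : ℝ := 583 / 732 with hc
  have hc0 : 0 < c := by norm_num [hc]
  have hc1 : c ≤ 1 := by norm_num [hc]
  set A := V c / c with hA
  have hA0 : 0 ≤ A := div_nonneg (h0 c ⟨hc0.le, hc1⟩) hc0.le
  have key : ∀ x ∈ Icc (0:ℝ) 1, A * (x ^ 2 * (583 / 10000 - 732 / 10000 * x)) ≤
      V x * (11 / 10 * De x - (x - x ^ 2 / 2)) := by
    intro x hx
    have h1 : V x * (x * (583 / 10000 - 732 / 10000 * x)) ≤ V x * (11 / 10 * De x - (x - x ^ 2 / 2)) :=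
      mul_le_mul_of_nonneg_left (num2 hx) (h0 x hx)
    refine le_trans ?_ h1
    rcases le_total x c with hxc | hxc
    · have h2 : 0 ≤ 583 / 10000 - 732 / 10000 * x := by rw [hc] at hxc; linarith
      have h3 := hs x c hx.1 hxc hc1
      have h4 : A * x ≤ V x := by
        rw [hA, div_mul_eq_mul_div, div_le_iff₀ hc0]; exact h3
      have h5 : 0 ≤ x * (583 / 10000 - 732 / 10000 * x) := mul_nonneg hx.1 h2
      nlinarith [mul_le_mul_of_nonneg_right h4 h5]
    · have h2 : 583 / 10000 - 732 / 10000 * x ≤ 0 := by rw [hc] at hxc; linarith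
      have h3 := hs c x hc0.le hxc hx.2
      have h4 : V x ≤ A * x := by
        rw [hA, div_mul_eq_mul_div, le_div_iff₀ hc0]; exact h3
      have h5 : x * (583 / 10000 - 732 / 10000 * x) ≤ 0 := mul_nonpos_of_nonneg_of_nonpos hx.1 h2
      nlinarith [mul_le_mul_of_nonpos_right h4 h5]
  have cx : Continuous (fun x : ℝ => x) := continuous_id
  have c1 : Continuous (fun x : ℝ => A * (x ^ 2 * (583 / 10000 - 732 / 10000 * x))) := by fun_prop
  have cD := De_cont
  have c2 : Continuous (fun x => V x * (11 / 10 * De x - (x - x ^ 2 / 2))) := by fun_prop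
  have hm := int_mono c1 c2 key
  have e1 : (∫ x in (0:ℝ)..1, A * (x ^ 2 * (583 / 10000 - 732 / 10000 * x))) =
      A * (583 / 30000 - 732 / 40000) := by
    rw [intervalIntegral.integral_const_mul]
    congr 1
    have h : ∀ x ∈ uIcc (0:ℝ) 1, HasDerivAt (fun x : ℝ => 583 / 10000 * (x ^ 3 / 3) - 732 / 10000 * (x ^ 4 / 4))
      (x ^ 2 * (583 / 10000 - 732 / 10000 * x)) x := by
      intro x _
      have e3 : HasDerivAt (fun x : ℝ => x ^ 3 / 3) (x ^ 2) x := by
        simpa using (hasDerivAt_pow 3 x).div_const 3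
      have e4 : HasDerivAt (fun x : ℝ => x ^ 4 / 4) (x ^ 3) x := by
        simpa using (hasDerivAt_pow 4 x).div_const 4
      have := (e3.const_mul (583 / 10000)).sub (e4.const_mul (732 / 10000))
      have e : x ^ 2 * (583 / 10000 - 732 / 10000 * x) = 583 / 10000 * x ^ 2 - 732 / 10000 * x ^ 3 := by ring
      rw [e]; exact this
    rw [integral_eq_sub_of_hasDerivAt h (ii (by fun_prop) 0 1)]
    norm_num
  have e2 : (∫ x in (0:ℝ)..1, V x * (11 / 10 * De x - (x - x ^ 2 / 2))) =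
      11 / 10 * (∫ x in (0:ℝ)..1, V x * De x) - ∫ x in (0:ℝ)..1, V x * (x - x ^ 2 / 2) := by
    have : (fun x => V x * (11 / 10 * De x - (x - x ^ 2 / 2))) =
        fun x => 11 / 10 * (V x * De x) - V x * (x - x ^ 2 / 2) := by funext x; ring
    rw [this, int_sub (by fun_prop) (by fun_prop), intervalIntegral.integral_const_mul]
  rw [e1, e2] at hm
  have : 0 ≤ A * (583 / 30000 - 732 / 40000) := mul_nonneg hA0 (by norm_num)
  linarith

end Pool.Agent.Q277.DDs
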