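import Pool.Agent.Q277.DDs.Basic

set_option autoImplicit false

namespace Pool.Agent.Q277.DDs

/-- `w` is a permutation of `{1,…,n}` (the entry `w_i` is the value of `w` at `i - 1 : Fin n`);
`i` is a double descent of `w` if `2 ≤ i ≤ n - 1` and `w_{i-1} > w_i > w_{i+1}`. -/
def IsDoubleDescent {n : ℕ} (w : Equiv.Perm (Fin n)) (i : ℕ) : Prop :=
  ∃ (h1 : 2 ≤ i) (h2 : i + 1 ≤ n),
    w ⟨i - 1, by omega⟩ < w ⟨i - 2, by omega⟩ ∧ w ⟨i, by omega⟩ < w ⟨i - 1, by omega⟩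

/-- `dd(I;n)`: the number of permutations whose set of double descents is `I` -/
noncomputable def dd (I : Set ℕ) (n : ℕ) : ℕ :=
  Nat.card {w : Equiv.Perm (Fin n) // {i | IsDoubleDescent w i} = I}

/-- JOB A: the counting formula -/
def StComb : Prop := ∀ n i : ℕ, 2 ≤ i → i + 1 ≤ n →
  (dd {i} n : ℝ) = n.factorial * TT (i - 1) (n - i)

end Pool.Agent.Q277.DDs
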