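import Pool.Agent.Q277.DDs.Basic

set_option autoImplicit false

namespace Pool.Agent.Q277.DDs

open intervalIntegral MeasureTheory Set Real

noncomputable def rho : ℝ := 2 * π / (3 * √3)

theorem sqrt3_rho : √3 * rho = 2 * π / 3 := by
  unfold rho
  have : √3 ≠ 0 := by positivity
  field_simp

theorem rho_sq : rho ^ 2 = 4 * π ^ 2 / 27 := by
  unfold rho
  rw [div_pow, mul_pow, mul_pow, Real.sq_sqrt (by norm_num)]
  ring

theorem rho_pos : 0 < rho := by unfold rho; positivity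

theorem rho_sq_gt : 1.46207 < rho ^ 2 := by
  rw [rho_sq]
  have := Real.pi_gt_d4
  nlinarith
theorem rho_sq_lt : rho ^ 2 < 1.46218 := by
  rw [rho_sq]
  have := Real.pi_lt_d4
  have := Real.pi_pos
  nlinarith
theorem rho_gt : 1.20916 < rho := by
  have h := rho_sq_gt
  have := rho_pos
  nlinarith
theorem rho_lt : rho < 1.20921 := by
  have h := rho_sq_lt
  have := rho_pos
  nlinarith

noncomputable def ue (x : ℝ) : ℝ := (2 / √3) * (exp (-(rho / 2) * x) * cos (π / 3 * x - π / 6))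
noncomputable def de (x : ℝ) : ℝ := (2 / √3) * (exp (-(rho / 2) * x) * cos (π / 3 * x + π / 6))

theorem ue_zero : ue 0 = 1 := by
  unfold ue
  have h : √3 ≠ 0 := by positivity
  have e : cos (π / 3 * 0 - π / 6) = √3 / 2 := by
    rw [mul_zero, zero_sub, cos_neg, cos_pi_div_six]
  rw [e]; simp [h]
theorem de_zero : de 0 = 1 := by
  unfold de
  have h : √3 ≠ 0 := by positivity
  have e : cos (π / 3 * 0 + π / 6) = √3 / 2 := by
    rw [mul_zero, zero_add, cos_pi_div_six]
  rw [e]; simp [h]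
theorem de_one : de 1 = 0 := by
  unfold de
  have e : π / 3 * 1 + π / 6 = π / 2 := by ring
  rw [e, cos_pi_div_two]; ring

theorem exp_der (x : ℝ) : HasDerivAt (fun x => exp (-(rho / 2) * x)) (exp (-(rho / 2) * x) * (-(rho / 2))) x := by
  have h : HasDerivAt (fun x : ℝ => -(rho / 2) * x) (-(rho / 2)) x := by
    simpa using (hasDerivAt_id x).const_mul (-(rho / 2))
  exact h.exp

theorem cosm_der (x : ℝ) : HasDerivAt (fun x => cos (π / 3 * x - π / 6)) (-sin (π / 3 * x - π / 6) * (π / 3)) x := by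
  have h : HasDerivAt (fun x : ℝ => π / 3 * x - π / 6) (π / 3) x := by
    simpa using ((hasDerivAt_id x).const_mul (π / 3)).sub_const (π / 6)
  exact h.cos
theorem cosp_der (x : ℝ) : HasDerivAt (fun x => cos (π / 3 * x + π / 6)) (-sin (π / 3 * x + π / 6) * (π / 3)) x := by
  have h : HasDerivAt (fun x : ℝ => π / 3 * x + π / 6) (π / 3) x := by
    simpa using ((hasDerivAt_id x).const_mul (π / 3)).add_const (π / 6)
  exact h.cos

theorem pi3 : π / 3 = √3 / 2 * rho := by
  have := sqrt3_rho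
  linarith

theorem trig1 (θ : ℝ) : cos (θ - π / 6) = 1 / 2 * cos (θ + π / 6) + √3 / 2 * sin (θ + π / 6) := by
  have e : θ - π / 6 = (θ + π / 6) - π / 3 := by ring
  rw [e, cos_sub, cos_pi_div_three, sin_pi_div_three]; ring

theorem trig2 (θ : ℝ) : cos (θ + π / 6) = 1 / 2 * cos (θ - π / 6) - √3 / 2 * sin (θ - π / 6) := by
  have e : θ + π / 6 = (θ - π / 6) + π / 3 := by ring
  rw [e, cos_add, cos_pi_div_three, sin_pi_div_three]; ring

theorem de_der (x : ℝ) : HasDerivAt de (-(rho * ue x)) x := by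
  have h := ((exp_der x).mul (cosp_der x)).const_mul (2 / √3)
  have e : -(rho * ue x) = 2 / √3 * (exp (-(rho / 2) * x) * -(rho / 2) * cos (π / 3 * x + π / 6) +
      exp (-(rho / 2) * x) * (-sin (π / 3 * x + π / 6) * (π / 3))) := by
    unfold ue
    rw [trig1 (π / 3 * x)]
    have hp := pi3
    have : -sin (π / 3 * x + π / 6) * (π / 3) = -sin (π / 3 * x + π / 6) * (√3 / 2 * rho) := by
      rw [← hp]
    rw [this]; ring
  rw [e]
  exact h

theorem ue_der (x : ℝ) : HasDerivAt ue (rho * (de x - ue x)) x := by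
  have h := ((exp_der x).mul (cosm_der x)).const_mul (2 / √3)
  have e : rho * (de x - ue x) = 2 / √3 * (exp (-(rho / 2) * x) * -(rho / 2) * cos (π / 3 * x - π / 6) +
      exp (-(rho / 2) * x) * (-sin (π / 3 * x - π / 6) * (π / 3))) := by
    unfold ue de
    rw [trig2 (π / 3 * x)]
    have hp := pi3
    have : -sin (π / 3 * x - π / 6) * (π / 3) = -sin (π / 3 * x - π / 6) * (√3 / 2 * rho) := by
      rw [← hp]
    rw [this]; ring
  rw [e]
  exact h

theorem ue_cont : Continuous ue := continuous_iff_continuousAt.2 fun x => (ue_der x).continuousAt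
theorem de_cont : Continuous de := continuous_iff_continuousAt.2 fun x => (de_der x).continuousAt

theorem de_nonneg {x : ℝ} (hx : x ∈ Icc (0:ℝ) 1) : 0 ≤ de x := by
  unfold de
  have hpi := Real.pi_pos
  have : 0 ≤ cos (π / 3 * x + π / 6) := by
    apply cos_nonneg_of_mem_Icc
    constructor <;> nlinarith [hx.1, hx.2]
  positivity

/-- comparison of functions by derivatives on [0,1] -/
theorem le_of_der {f g f' g' : ℝ → ℝ} (hf : ∀ x, HasDerivAt f (f' x) x)
    (hg : ∀ x, HasDerivAt g (g' x) x) (h0 : f 0 ≤ g 0)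
    (h : ∀ x ∈ Icc (0:ℝ) 1, f' x ≤ g' x) : ∀ x ∈ Icc (0:ℝ) 1, f x ≤ g x := by
  have hd : ∀ x, HasDerivAt (fun y => g y - f y) (g' x - f' x) x := fun x => (hg x).sub (hf x)
  have hm : MonotoneOn (fun y => g y - f y) (Icc (0:ℝ) 1) := by
    apply monotoneOn_of_deriv_nonneg (convex_Icc 0 1)
    · exact fun x _ => (hd x).continuousAt.continuousWithinAt
    · exact fun x _ => (hd x).differentiableAt.differentiableWithinAt
    · intro x hx
      rw [(hd x).deriv]
      rw [interior_Icc] at hx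
      linarith [h x ⟨hx.1.le, hx.2.le⟩]
  intro x hx
  have := hm (left_mem_Icc.2 zero_le_one) hx hx.1
  simp only at this
  linarith

theorem ue_ge_de {x : ℝ} (hx : x ∈ Icc (0:ℝ) 1) : de x ≤ ue x := by
  refine le_of_der de_der ue_der (by rw [ue_zero, de_zero]) (fun y hy => ?_) x hx
  have := de_nonneg hy
  have := rho_pos
  nlinarith [mul_nonneg this.le (de_nonneg hy)]

theorem ue_le_one {x : ℝ} (hx : x ∈ Icc (0:ℝ) 1) : ue x ≤ 1 := by
  refine le_of_der ue_der (fun x => hasDerivAt_const x (1:ℝ)) (by rw [ue_zero]) (fun y hy => ?_) x hx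
  have := ue_ge_de hy
  have := rho_pos
  nlinarith [mul_nonneg this.le (sub_nonneg.2 (ue_ge_de hy))]

theorem pder (c : ℝ) (n : ℕ) (x : ℝ) : HasDerivAt (fun x => c * x ^ (n + 1)) (c * ((n + 1) * x ^ n)) x := by
  have := (hasDerivAt_pow (n + 1) x).const_mul c
  simpa using this

theorem de_ge1 {x : ℝ} (hx : x ∈ Icc (0:ℝ) 1) : 1 - rho * x ≤ de x := by
  refine le_of_der (f := fun x => 1 - rho * x) (f' := fun _ => -rho) (fun x => ?_) de_der
    (by simp [de_zero]) (fun y hy => ?_) x hx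
  · simpa using ((hasDerivAt_id x).const_mul rho).const_sub 1
  · have := ue_le_one hy
    have := rho_pos
    nlinarith

theorem udiff_le {x : ℝ} (hx : x ∈ Icc (0:ℝ) 1) :
    rho * (de x - ue x) ≤ -(rho ^ 2 * x) + rho ^ 3 * x ^ 2 / 2 := by
  refine le_of_der (f := fun x => rho * (de x - ue x)) (f' := fun x => -(rho ^ 2 * de x))
    (g := fun x => -(rho ^ 2 * x) + rho ^ 3 * x ^ 2 / 2)
    (g' := fun x => -(rho ^ 2) + rho ^ 3 * x) (fun x => ?_) (fun x => ?_) ?_ (fun y hy => ?_) x hx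
  · have h := ((de_der x).sub (ue_der x)).const_mul rho
    have e : rho * (-(rho * ue x) - rho * (de x - ue x)) = -(rho ^ 2 * de x) := by ring
    rw [← e]; exact h
  · have h0 : HasDerivAt (fun x : ℝ => rho ^ 2 * x) (rho ^ 2) x := by
      simpa using (hasDerivAt_id x).const_mul (rho ^ 2)
    have h1 : HasDerivAt (fun x : ℝ => -(rho ^ 2 * x)) (-(rho ^ 2)) x := h0.neg
    have h2 : HasDerivAt (fun x : ℝ => rho ^ 3 * x ^ 2 / 2) (rho ^ 3 * x) x := by
      have := ((hasDerivAt_pow 2 x).const_mul (rho ^ 3)).div_const 2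
      simp only [Nat.cast_ofNat, Nat.add_one_sub_one, pow_one] at this
      have e : rho ^ 3 * (2 * x) / 2 = rho ^ 3 * x := by ring
      rw [← e]; simpa using this
    exact h1.add h2
  · simp [ue_zero, de_zero]
  · have := de_ge1 hy
    have h2 : 0 < rho ^ 2 := pow_pos rho_pos 2
    nlinarith [mul_le_mul_of_nonneg_left this h2.le]

/-- the polynomial majorant of `ue` -/
noncomputable def pe (x : ℝ) : ℝ := 1 - rho ^ 2 * x ^ 2 / 2 + rho ^ 3 * x ^ 3 / 6

theorem pe_der (x : ℝ) : HasDerivAt pe (-(rho ^ 2 * x) + rho ^ 3 * x ^ 2 / 2) x := by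
  have h1 : HasDerivAt (fun x : ℝ => rho ^ 2 * x ^ 2 / 2) (rho ^ 2 * x) x := by
    have := ((hasDerivAt_pow 2 x).const_mul (rho ^ 2)).div_const 2
    have e : rho ^ 2 * x = rho ^ 2 * (((2:ℕ):ℝ) * x ^ (2 - 1)) / 2 := by push_cast; ring
    rw [e]; exact this
  have h2 : HasDerivAt (fun x : ℝ => rho ^ 3 * x ^ 3 / 6) (rho ^ 3 * x ^ 2 / 2) x := by
    have := ((hasDerivAt_pow 3 x).const_mul (rho ^ 3)).div_const 6
    have e : rho ^ 3 * x ^ 2 / 2 = rho ^ 3 * (((3:ℕ):ℝ) * x ^ (3 - 1)) / 6 := by push_cast; ring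
    rw [e]; exact this
  have := (h1.const_sub 1).add h2
  exact this

theorem pe_cont : Continuous pe := continuous_iff_continuousAt.2 fun x => (pe_der x).continuousAt

theorem ue_le_pe {x : ℝ} (hx : x ∈ Icc (0:ℝ) 1) : ue x ≤ pe x := by
  refine le_of_der ue_der pe_der ?_ (fun y hy => udiff_le hy) x hx
  rw [ue_zero]; simp [pe]

theorem de_ge2 {x : ℝ} (hx : x ∈ Icc (0:ℝ) 1) :
    1 - rho * x + rho ^ 3 * x ^ 3 / 6 - rho ^ 4 * x ^ 4 / 24 ≤ de x := by
  refine le_of_der (f := fun x => 1 - rho * x + rho ^ 3 * x ^ 3 / 6 - rho ^ 4 * x ^ 4 / 24)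
    (f' := fun x => -rho + rho ^ 3 * x ^ 2 / 2 - rho ^ 4 * x ^ 3 / 6) (fun x => ?_) de_der ?_
    (fun y hy => ?_) x hx
  · have h1 : HasDerivAt (fun x : ℝ => 1 - rho * x) (-rho) x := by
      simpa using ((hasDerivAt_id x).const_mul rho).const_sub 1
    have h2 : HasDerivAt (fun x : ℝ => rho ^ 3 * x ^ 3 / 6) (rho ^ 3 * x ^ 2 / 2) x := by
      have := ((hasDerivAt_pow 3 x).const_mul (rho ^ 3)).div_const 6
      have e : rho ^ 3 * x ^ 2 / 2 = rho ^ 3 * (((3:ℕ):ℝ) * x ^ (3 - 1)) / 6 := by push_cast; ring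
      rw [e]; exact this
    have h3 : HasDerivAt (fun x : ℝ => rho ^ 4 * x ^ 4 / 24) (rho ^ 4 * x ^ 3 / 6) x := by
      have := ((hasDerivAt_pow 4 x).const_mul (rho ^ 4)).div_const 24
      have e : rho ^ 4 * x ^ 3 / 6 = rho ^ 4 * (((4:ℕ):ℝ) * x ^ (4 - 1)) / 24 := by push_cast; ring
      rw [e]; exact this
    exact (h1.add h2).sub h3
  · rw [de_zero]; simp
  · have h := ue_le_pe hy
    have hr := rho_pos
    have := mul_le_mul_of_nonneg_left h hr.le
    unfold pe at this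
    nlinarith

/-- the antiderivative of `de` -/
noncomputable def De (x : ℝ) : ℝ := (ue x - de x) / rho

theorem De_der (x : ℝ) : HasDerivAt De (de x) x := by
  have h := ((ue_der x).sub (de_der x)).div_const rho
  have e : de x = (rho * (de x - ue x) - -(rho * ue x)) / rho := by
    field_simp [rho_pos.ne']; ring
  rw [e]; exact h

theorem De_cont : Continuous De := continuous_iff_continuousAt.2 fun x => (De_der x).continuousAt

theorem De_ge {x : ℝ} (hx : x ∈ Icc (0:ℝ) 1) :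
    x - rho * x ^ 2 / 2 + rho ^ 3 * x ^ 4 / 24 - rho ^ 4 * x ^ 5 / 120 ≤ De x := by
  refine le_of_der (f := fun x => x - rho * x ^ 2 / 2 + rho ^ 3 * x ^ 4 / 24 - rho ^ 4 * x ^ 5 / 120)
    (f' := fun x => 1 - rho * x + rho ^ 3 * x ^ 3 / 6 - rho ^ 4 * x ^ 4 / 24) (fun x => ?_) De_der ?_
    (fun y hy => de_ge2 hy) x hx
  · have h1 : HasDerivAt (fun x : ℝ => x - rho * x ^ 2 / 2) (1 - rho * x) x := by
      have := ((hasDerivAt_pow 2 x).const_mul rho).div_const 2
      have e : rho * x = rho * (((2:ℕ):ℝ) * x ^ (2 - 1)) / 2 := by push_cast; ring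
      have h : HasDerivAt (fun x : ℝ => rho * x ^ 2 / 2) (rho * x) x := by rw [e]; exact this
      exact (hasDerivAt_id x).sub h
    have h2 : HasDerivAt (fun x : ℝ => rho ^ 3 * x ^ 4 / 24) (rho ^ 3 * x ^ 3 / 6) x := by
      have := ((hasDerivAt_pow 4 x).const_mul (rho ^ 3)).div_const 24
      have e : rho ^ 3 * x ^ 3 / 6 = rho ^ 3 * (((4:ℕ):ℝ) * x ^ (4 - 1)) / 24 := by push_cast; ring
      rw [e]; exact this
    have h3 : HasDerivAt (fun x : ℝ => rho ^ 4 * x ^ 5 / 120) (rho ^ 4 * x ^ 4 / 24) x := by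
      have := ((hasDerivAt_pow 5 x).const_mul (rho ^ 4)).div_const 120
      have e : rho ^ 4 * x ^ 4 / 24 = rho ^ 4 * (((5:ℕ):ℝ) * x ^ (5 - 1)) / 120 := by push_cast; ring
      rw [e]; exact this
    exact (h1.add h2).sub h3
  · simp [De, ue_zero, de_zero]

end Pool.Agent.Q277.DDs
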