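import Pool.Agent.Q277.DDs.Num
import Pool.Agent.Q277.DDs.Def

set_option autoImplicit false

namespace Pool.Agent.Q277.DDs

open intervalIntegral MeasureTheory Set Real

theorem pairG (j q : ℕ) : 0 < ∫ x in (0:ℝ)..1, DG rho 1 1 j x * v (q + 1) (1 - x) := by
  have r1 := rho_gt
  have r2 := rho_lt
  norm_num at r1 r2
  have hL : Lf (WG rho 1 1) (DG rho 1 1) 0 = 0 := by
    rw [Lf_comb]
    have := L0_succ 1
    norm_num [this]
  refine pair_all (alt_comb rho 1 1) hL BG0 BG1 BG2 ?_ ?_ ?_ ?_ ?_ ?_ j q <;>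
  · norm_num [WG, u1_2, u1_3, u1_4, u1_5, u1_6, u1_7, u1_8]
    linarith

theorem pairK (j q : ℕ) : 0 < ∫ x in (0:ℝ)..1, DG (rho ^ 2) 2 3 j x * v (q + 1) (1 - x) := by
  have r1 := rho_sq_gt
  have r2 := rho_sq_lt
  norm_num at r1 r2
  have hL : Lf (WG (rho ^ 2) 2 3) (DG (rho ^ 2) 2 3) 0 = 0 := by
    rw [Lf_comb]
    have h3 := L0_succ 3
    have h4 := L0_succ 4
    have : rho ^ 2 * L0 5 = L0 3 := by rw [← h3, ← h4]; ring
    norm_num [this]
  refine pair_all (alt_comb (rho ^ 2) 2 3) hL BK0 BK1 BK2 ?_ ?_ ?_ ?_ ?_ ?_ j q <;>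
  · norm_num [WG, u1_4, u1_5, u1_6, u1_7, u1_8, u1_9, u1_10, u1_11]
    linarith

theorem TT_comb (a : ℝ) (r s j q : ℕ) : (∫ x in (0:ℝ)..1, DG a r s j x * v q (1 - x)) =
    (-1) ^ (j + 1) * (a * TT (j + s + r) q - TT (j + s) q) := by
  have h3 := v_cont (j + s + r)
  have h4 := v_cont (j + s)
  have h5 := v_cont q
  unfold DG TT
  have e1 : (fun x => (-1) ^ (j + 1) * (a * v (j + s + r) x - v (j + s) x) * v q (1 - x)) =
      fun x => (-1) ^ (j + 1) * (a * (v (j + s + r) x * v q (1 - x)) - v (j + s) x * v q (1 - x)) := by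
    funext x; ring
  rw [e1, intervalIntegral.integral_const_mul, int_sub (by fun_prop) (by fun_prop),
    intervalIntegral.integral_const_mul]

theorem signG (p q : ℕ) : 0 < (-1 : ℝ) ^ (p + 1) * (rho * TT (p + 2) (q + 1) - TT (p + 1) (q + 1)) := by
  have := pairG p q
  rw [TT_comb] at this
  exact this

theorem v4e (x : ℝ) : v 4 x = 3 / 8 - x ^ 2 / 4 - x ^ 3 / 6 + x ^ 4 / 24 := by
  rw [(sl_spec 4).2, show (sl 4).2 = [(3 / 8), 0, (-1 / 2), (-1), 1] from by decide +kernel]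
  norm_num [ev, Nat.factorial]
  ring
theorem v2e (x : ℝ) : v 2 x = 1 / 2 - x ^ 2 / 2 := by
  rw [(sl_spec 2).2, show (sl 2).2 = [(1 / 2), 0, (-1)] from by decide +kernel]
  norm_num [ev, Nat.factorial]
  try ring
theorem v3e (x : ℝ) : v 3 x = 1 / 2 - x ^ 2 / 2 := by
  rw [(sl_spec 3).2, show (sl 3).2 = [(1 / 2), 0, (-1), 0] from by decide +kernel]
  norm_num [ev, Nat.factorial]
  try ring
theorem v1e (x : ℝ) : v 1 x = 1 - x := by
  rw [(sl_spec 1).2, show (sl 1).2 = [1, (-1)] from by decide +kernel]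
  norm_num [ev, Nat.factorial]
  try ring

theorem K3pos {s : ℝ} (h0 : 0 < s) (h1 : s < 1) : 0 < rho ^ 2 * v 4 s - v 2 s := by
  rw [v4e, v2e]
  obtain ⟨t, ht⟩ : ∃ t, t = 1 - s := ⟨_, rfl⟩
  obtain ⟨A, hA⟩ : ∃ A, A = 73109 / 50000 - rho ^ 2 := ⟨_, rfl⟩
  obtain ⟨B, hB⟩ : ∃ B, B = rho ^ 2 - 146207 / 100000 := ⟨_, rfl⟩
  have t0 : 0 < t := by linarith
  have A0 : 0 < A := by have := rho_sq_lt; norm_num at this ⊢; linarith
  have B0 : 0 < B := by have := rho_sq_gt; norm_num at this ⊢; linarith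
  have key : 0 < A * (3511 / 8 * s ^ 0 * t ^ 4 + 3511 / 2 * s ^ 1 * t ^ 3 + 42414 / 11 * s ^ 2 * t ^ 2 + 131035 / 66 * s ^ 3 * t ^ 1) + B * (1757 / 4 * s ^ 0 * t ^ 4 + 1757 * s ^ 1 * t ^ 3 + 42436 / 11 * s ^ 2 * t ^ 2 + 65545 / 33 * s ^ 3 * t ^ 1) := by positivity
  refine key.trans_le (le_of_eq ?_)
  rw [hA, hB, ht]
  ring

theorem v_pos (q : ℕ) {x : ℝ} (h0 : 0 ≤ x) (h1 : x < 1) : 0 < v (q + 1) x := by
  rw [v_succ]
  exact intervalIntegral_pos_of_pos_on (ii (u_cont q) x 1) (fun t ht =>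
    u_pos q (h0.trans_lt ht.1) ht.2.le) h1

theorem signK2 (q : ℕ) : 0 < rho ^ 2 * TT 4 (q + 1) - TT 2 (q + 1) := by
  have h3 := v_cont 4
  have h4 := v_cont 2
  have h5 := v_cont (q + 1)
  have e : rho ^ 2 * TT 4 (q + 1) - TT 2 (q + 1) =
      ∫ x in (0:ℝ)..1, (rho ^ 2 * v 4 x - v 2 x) * v (q + 1) (1 - x) := by
    unfold TT
    rw [← intervalIntegral.integral_const_mul, ← int_sub (by fun_prop) (by fun_prop)]
    congr 1; funext x; ring
  rw [e]
  refine intervalIntegral_pos_of_pos_on (ii (by fun_prop) 0 1) (fun x hx => ?_) zero_lt_one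
  exact mul_pos (K3pos hx.1 hx.2) (v_pos q (by linarith [hx.2]) (by linarith [hx.1]))

theorem signK (p q : ℕ) : 0 < (-1 : ℝ) ^ p * (rho ^ 2 * TT (p + 4) (q + 1) - TT (p + 2) (q + 1)) := by
  cases p with
  | zero => simpa using signK2 q
  | succ p =>
    have := pairK p q
    rw [TT_comb] at this
    rw [show p + 1 + 4 = p + 3 + 2 by ring, show p + 1 + 2 = p + 3 by ring]
    exact this

/-- the base case -/
theorem base24 : TT 2 3 < TT 1 4 := by
  have e1 : TT 2 3 = 11 / 120 := by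
    unfold TT
    have : (fun x => v 2 x * v 3 (1 - x)) = fun x => (1 / 4) * (2 * x - x ^ 2 - 2 * x ^ 3 + x ^ 4) := by
      funext x; rw [v2e, v3e]; ring
    rw [this, intervalIntegral.integral_const_mul]
    have hd : ∀ y ∈ uIcc (0:ℝ) 1, HasDerivAt (fun x : ℝ => x ^ 2 - x ^ 3 / 3 - x ^ 4 / 2 + x ^ 5 / 5)
        (2 * y - y ^ 2 - 2 * y ^ 3 + y ^ 4) y := by
      intro y _
      have h2 : HasDerivAt (fun x : ℝ => x ^ 2) (2 * y) y := by simpa using hasDerivAt_pow 2 y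
      have h3 : HasDerivAt (fun x : ℝ => x ^ 3 / 3) (y ^ 2) y := by
        simpa using (hasDerivAt_pow 3 y).div_const 3
      have h4 : HasDerivAt (fun x : ℝ => x ^ 4 / 2) (2 * y ^ 3) y := by
        have := (hasDerivAt_pow 4 y).div_const 2
        have e : 2 * y ^ 3 = ((4:ℕ):ℝ) * y ^ (4 - 1) / 2 := by norm_num; ring
        rw [e]; exact this
      have h5 : HasDerivAt (fun x : ℝ => x ^ 5 / 5) (y ^ 4) y := by
        simpa using (hasDerivAt_pow 5 y).div_const 5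
      exact ((h2.sub h3).sub h4).add h5
    rw [integral_eq_sub_of_hasDerivAt hd (ii (by fun_prop) 0 1)]
    norm_num
  have e2 : TT 1 4 = 71 / 720 := by
    rw [TT_symm]
    unfold TT
    have : (fun x => v 4 x * v 1 (1 - x)) = fun x => 3 / 8 * x - x ^ 3 / 4 - x ^ 4 / 6 + x ^ 5 / 24 := by
      funext x; rw [v1e, v4e]; ring
    rw [this]
    have hd : ∀ y ∈ uIcc (0:ℝ) 1, HasDerivAt (fun x : ℝ => 3 / 16 * x ^ 2 - x ^ 4 / 16 - x ^ 5 / 30 + x ^ 6 / 144)
        (3 / 8 * y - y ^ 3 / 4 - y ^ 4 / 6 + y ^ 5 / 24) y := by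
      intro y _
      have h2 : HasDerivAt (fun x : ℝ => 3 / 16 * x ^ 2) (3 / 8 * y) y := by
        have := (hasDerivAt_pow 2 y).const_mul (3 / 16 : ℝ)
        have e : 3 / 8 * y = 3 / 16 * (((2:ℕ):ℝ) * y ^ (2 - 1)) := by norm_num; ring
        rw [e]; exact this
      have h3 : HasDerivAt (fun x : ℝ => x ^ 4 / 16) (y ^ 3 / 4) y := by
        have := (hasDerivAt_pow 4 y).div_const 16
        have e : y ^ 3 / 4 = ((4:ℕ):ℝ) * y ^ (4 - 1) / 16 := by norm_num; ring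
        rw [e]; exact this
      have h4 : HasDerivAt (fun x : ℝ => x ^ 5 / 30) (y ^ 4 / 6) y := by
        have := (hasDerivAt_pow 5 y).div_const 30
        have e : y ^ 4 / 6 = ((5:ℕ):ℝ) * y ^ (5 - 1) / 30 := by norm_num; ring
        rw [e]; exact this
      have h5 : HasDerivAt (fun x : ℝ => x ^ 6 / 144) (y ^ 5 / 24) y := by
        have := (hasDerivAt_pow 6 y).div_const 144
        have e : y ^ 5 / 24 = ((6:ℕ):ℝ) * y ^ (6 - 1) / 144 := by norm_num; ring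
        rw [e]; exact this
      exact ((h2.sub h3).sub h4).add h5
    rw [integral_eq_sub_of_hasDerivAt hd (ii (by fun_prop) 0 1)]
    norm_num
  rw [e1, e2]; norm_num

/-- the difference of neighbouring values; `i = p + 1`, `j = q + 1` -/
noncomputable def FF (p q : ℕ) : ℝ := TT p (q + 1) - TT (p + 1) q

/-- opposite parity -/
theorem opp (p q : ℕ) (h : Odd (p + q)) : 0 < (-1 : ℝ) ^ p * FF (p + 1) (q + 1) := by
  have h1 := signG q p
  have h2 := signG p q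
  have e : (-1 : ℝ) ^ q = -(-1) ^ p := by
    have a : (-1 : ℝ) ^ (p + q) = -1 := h.neg_one_pow
    rw [pow_add] at a
    rcases neg_one_pow_eq_or ℝ p with hp | hp <;> rw [hp] at a ⊢ <;> linarith
  have hr := rho_pos
  have key : rho * ((-1 : ℝ) ^ p * FF (p + 1) (q + 1)) =
      (-1) ^ (q + 1) * (rho * TT (q + 2) (p + 1) - TT (q + 1) (p + 1)) +
      (-1) ^ (p + 1) * (rho * TT (p + 2) (q + 1) - TT (p + 1) (q + 1)) := by
    unfold FF
    rw [TT_symm (q + 2) (p + 1), TT_symm (q + 1) (p + 1), pow_succ (-1 : ℝ) q, e, pow_succ (-1 : ℝ) p]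
    ring
  have : 0 < rho * ((-1 : ℝ) ^ p * FF (p + 1) (q + 1)) := by rw [key]; linarith
  exact pos_of_mul_pos_right this hr.le

/-- same parity, one step -/
theorem same_step (a b : ℕ) :
    0 < (-1 : ℝ) ^ (b + 1) * (rho ^ 2 * FF (a + 1) (b + 4) - FF (a + 1) (b + 2)) := by
  have h1 := signK (b + 1) a
  have h2 := signK b (a + 1)
  have key : (-1 : ℝ) ^ (b + 1) * (rho ^ 2 * FF (a + 1) (b + 4) - FF (a + 1) (b + 2)) =
      (-1 : ℝ) ^ (b + 1) * (rho ^ 2 * TT (b + 1 + 4) (a + 1) - TT (b + 1 + 2) (a + 1)) +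
      (-1 : ℝ) ^ b * (rho ^ 2 * TT (b + 4) (a + 1 + 1) - TT (b + 2) (a + 1 + 1)) := by
    unfold FF
    rw [TT_symm (b + 1 + 4) (a + 1), TT_symm (b + 1 + 2) (a + 1), TT_symm (b + 4) (a + 1 + 1),
      TT_symm (b + 2) (a + 1 + 1), pow_succ (-1 : ℝ) b]
    rw [show b + 4 + 1 = b + 1 + 4 by ring, show b + 2 + 1 = b + 1 + 2 by ring]
    ring
  rw [key]; linarith

theorem FF_diag (p : ℕ) : FF p p = 0 := by
  unfold FF; rw [TT_symm p (p + 1)]; ring

theorem same_one (k : ℕ) : 0 < FF 1 (2 * k + 3) := by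
  induction k with
  | zero =>
    have := base24
    show 0 < TT 1 4 - TT 2 3
    linarith
  | succ k ih =>
    have h := same_step 0 (2 * k + 1)
    have e : (-1 : ℝ) ^ (2 * k + 1 + 1) = 1 := by
      rw [show 2 * k + 1 + 1 = 2 * (k + 1) by ring, pow_mul]; norm_num
    rw [e, one_mul] at h
    have h2 : 0 < rho ^ 2 * FF 1 (2 * k + 1 + 4) := by
      have : FF (0 + 1) (2 * k + 1 + 2) = FF 1 (2 * k + 3) := rfl
      rw [this] at h
      simp only [zero_add] at h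
      linarith
    have := pos_of_mul_pos_right h2 (by positivity)
    exact this

theorem same_gen (a k : ℕ) : 0 < (-1 : ℝ) ^ (a + 1) * FF (a + 2) (a + 2 + 2 * (k + 1)) := by
  induction k with
  | zero =>
    have h := same_step (a + 1) a
    have h2 : 0 < rho ^ 2 * ((-1 : ℝ) ^ (a + 1) * FF (a + 2) (a + 4)) := by
      have e : FF (a + 1 + 1) (a + 2) = 0 := FF_diag (a + 2)
      rw [e] at h
      have e2 : rho ^ 2 * ((-1 : ℝ) ^ (a + 1) * FF (a + 2) (a + 4)) =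
        (-1) ^ (a + 1) * (rho ^ 2 * FF (a + 1 + 1) (a + 4) - 0) := by ring
      rw [e2]; exact h
    exact pos_of_mul_pos_right h2 (by positivity)
  | succ k ih =>
    have h := same_step (a + 1) (a + 2 * (k + 1))
    have e : (-1 : ℝ) ^ (a + 2 * (k + 1) + 1) = (-1) ^ (a + 1) := by
      rw [show a + 2 * (k + 1) + 1 = (a + 1) + 2 * (k + 1) by ring, pow_add (-1 : ℝ) (a + 1),
        pow_mul (-1 : ℝ) 2]; norm_num
    rw [e] at h
    have e1 : FF (a + 1 + 1) (a + 2 * (k + 1) + 2) = FF (a + 2) (a + 2 + 2 * (k + 1)) := by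
      congr 1; ring
    have e2 : FF (a + 1 + 1) (a + 2 * (k + 1) + 4) = FF (a + 2) (a + 2 + 2 * (k + 1 + 1)) := by
      congr 1; ring
    rw [e1, e2] at h
    have h2 : 0 < rho ^ 2 * ((-1 : ℝ) ^ (a + 1) * FF (a + 2) (a + 2 + 2 * (k + 1 + 1))) := by
      have e3 : rho ^ 2 * ((-1 : ℝ) ^ (a + 1) * FF (a + 2) (a + 2 + 2 * (k + 1 + 1))) =
        (-1) ^ (a + 1) * (rho ^ 2 * FF (a + 2) (a + 2 + 2 * (k + 1 + 1)) -
          FF (a + 2) (a + 2 + 2 * (k + 1))) +
        (-1) ^ (a + 1) * FF (a + 2) (a + 2 + 2 * (k + 1)) := by ring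
      rw [e3]; linarith
    exact pos_of_mul_pos_right h2 (by positivity)

theorem signF (p q : ℕ) (hp : 1 ≤ p) (hpq : p < q) : 0 < (-1 : ℝ) ^ (p + 1) * FF p q := by
  obtain ⟨p, rfl⟩ : ∃ a, p = a + 1 := ⟨p - 1, by omega⟩
  obtain ⟨q, rfl⟩ : ∃ b, q = b + 1 := ⟨q - 1, by omega⟩
  rcases Nat.even_or_odd (p + q) with h | h
  · rcases Nat.eq_zero_or_pos p with h0 | h0
    · subst h0
      obtain ⟨c, hc⟩ := h
      obtain ⟨k, hk⟩ : ∃ k, q + 1 = 2 * k + 3 := ⟨c - 1, by omega⟩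
      rw [hk]
      have := same_one k
      norm_num
      exact this
    · obtain ⟨a, rfl⟩ : ∃ a, p = a + 1 := ⟨p - 1, by omega⟩
      obtain ⟨c, hc⟩ := h
      obtain ⟨k, hk⟩ : ∃ k, q + 1 = a + 2 + 2 * (k + 1) := ⟨c - a - 2, by omega⟩
      rw [hk]
      have := same_gen a k
      have e : (-1 : ℝ) ^ (a + 1 + 1 + 1) = (-1) ^ (a + 1) := by
        rw [show a + 1 + 1 + 1 = (a + 1) + 2 by ring, pow_add]; norm_num
      rw [e]; exact this
  · have := opp p q h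
    have e : (-1 : ℝ) ^ (p + 1 + 1) = (-1) ^ p := by
      rw [show p + 1 + 1 = p + 2 by ring, pow_add]; norm_num
    rw [e]; exact this

/-- the answer, given the counting formula -/
theorem main (hC : StComb) (n i : ℕ) (h2 : 2 ≤ i) (hn : 2 * i < n) :
    0 < (-1 : ℝ) ^ i * ((dd {i} n : ℝ) - dd {i + 1} n) := by
  rw [hC n i h2 (by omega), hC n (i + 1) (by omega) (by omega)]
  have h := signF (i - 1) (n - i - 1) (by omega) (by omega)
  unfold FF at h
  rw [show i - 1 + 1 = i by omega, show n - i - 1 + 1 = n - i by omega] at h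
  rw [show i + 1 - 1 = i by omega, show n - (i + 1) = n - i - 1 by omega]
  have hf : (0:ℝ) < n.factorial := by positivity
  have e : (-1 : ℝ) ^ i * ((n.factorial : ℝ) * TT (i - 1) (n - i) - n.factorial * TT i (n - i - 1)) =
      n.factorial * ((-1) ^ i * (TT (i - 1) (n - i) - TT i (n - i - 1))) := by ring
  rw [e]
  exact mul_pos hf h

end Pool.Agent.Q277.DDs
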