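import Pool.Agent.Q277.DDs.Orb

set_option autoImplicit false

namespace Pool.Agent.Q277.DDs

open intervalIntegral MeasureTheory Set Real

/-- polynomials in the basis `x^k/k!` -/
noncomputable def ev : List ℚ → ℕ → ℝ → ℝ
  | [], _, _ => 0
  | c :: l, k, x => (c:ℝ) * (x ^ k / (k.factorial : ℝ)) + ev l (k + 1) x

theorem ev_cont (l : List ℚ) (k : ℕ) : Continuous (ev l k) := by
  induction l generalizing k with
  | nil => exact continuous_const
  | cons c l ih =>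
    have := ih (k + 1)
    show Continuous (fun x => (c:ℝ) * (x ^ k / (k.factorial : ℝ)) + ev l (k + 1) x)
    fun_prop

theorem ev_der (l : List ℚ) (k : ℕ) (x : ℝ) : HasDerivAt (ev l (k + 1)) (ev l k x) x := by
  induction l generalizing k with
  | nil => exact hasDerivAt_const x 0
  | cons c l ih =>
    have h1 : HasDerivAt (fun x : ℝ => (c:ℝ) * (x ^ (k + 1) / ((k + 1).factorial : ℝ)))
        ((c:ℝ) * (x ^ k / (k.factorial : ℝ))) x := by
      have h2 := ((hasDerivAt_pow (k + 1) x).div_const ((k + 1).factorial : ℝ)).const_mul (c:ℝ)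
      have e : (c:ℝ) * (x ^ k / (k.factorial : ℝ)) =
          (c:ℝ) * (((k + 1 : ℕ):ℝ) * x ^ (k + 1 - 1) / ((k + 1).factorial : ℝ)) := by
        rw [Nat.factorial_succ]; push_cast
        have : (k.factorial : ℝ) ≠ 0 := by positivity
        have : (k:ℝ) + 1 ≠ 0 := by positivity
        field_simp
      rw [e]; exact h2
    exact h1.add (ih (k + 1))

theorem ev_zero (l : List ℚ) (k : ℕ) : ev l (k + 1) 0 = 0 := by
  induction l generalizing k with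
  | nil => rfl
  | cons c l ih => show (c:ℝ) * ((0:ℝ) ^ (k + 1) / ((k + 1).factorial : ℝ)) + ev l (k + 1 + 1) 0 = 0
                   rw [ih]; simp

theorem ev_int (l : List ℚ) (k : ℕ) (a b : ℝ) :
    (∫ t in a..b, ev l k t) = ev l (k + 1) b - ev l (k + 1) a :=
  integral_eq_sub_of_hasDerivAt (fun x _ => ev_der l k x) (ii (ev_cont l k) a b)

def ladd : List ℚ → List ℚ → List ℚ
  | [], l => l
  | l, [] => l
  | a :: l, b :: l' => (a + b) :: ladd l l'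

theorem ev_ladd (l l' : List ℚ) (k : ℕ) (x : ℝ) : ev (ladd l l') k x = ev l k x + ev l' k x := by
  induction l generalizing l' k with
  | nil => simp [ladd, ev]
  | cons a l ih =>
    cases l' with
    | nil => simp [ladd, ev]
    | cons b l' =>
      show ((a + b : ℚ):ℝ) * _ + ev (ladd l l') (k + 1) x = _
      rw [ih]; simp only [ev]; push_cast; ring

def lneg : List ℚ → List ℚ
  | [] => []
  | a :: l => (-a) :: lneg l

theorem ev_lneg (l : List ℚ) (k : ℕ) (x : ℝ) : ev (lneg l) k x = -ev l k x := by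
  induction l generalizing k with
  | nil => simp [lneg, ev]
  | cons a l ih =>
    show ((-a : ℚ):ℝ) * _ + ev (lneg l) (k + 1) x = _
    rw [ih]; simp only [ev]; push_cast; ring

def sum1 : List ℚ → ℕ → ℚ
  | [], _ => 0
  | c :: l, k => c / (k.factorial : ℚ) + sum1 l (k + 1)

theorem ev_one (l : List ℚ) (k : ℕ) : ev l k 1 = (sum1 l k : ℝ) := by
  induction l generalizing k with
  | nil => simp [sum1, ev]
  | cons a l ih =>
    simp only [sum1, ev]; rw [ih]; push_cast; rw [one_pow]; ring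

def sl : ℕ → List ℚ × List ℚ
  | 0 => ([1], [0])
  | m + 1 => (0 :: ladd (sl m).1 (sl m).2, sum1 (sl m).1 1 :: lneg (sl m).1)

theorem sl_spec (m : ℕ) : u m = ev (sl m).1 0 ∧ v m = ev (sl m).2 0 := by
  induction m with
  | zero =>
    constructor
    · funext x; rw [u_zero]; simp [sl, ev]
    · funext x; rw [v_zero]; simp [sl, ev]
  | succ m ih =>
    constructor
    · funext x
      rw [u_succ, ih.1, ih.2]
      have : (fun t => ev (sl m).1 0 t + ev (sl m).2 0 t) = ev (ladd (sl m).1 (sl m).2) 0 := by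
        funext t; rw [ev_ladd]
      rw [this, ev_int, ev_zero]
      simp [sl, ev]
    · funext x
      rw [v_succ, ih.1, ev_int, ev_one]
      simp [sl, ev, ev_lneg]
      ring

theorem u_one (m : ℕ) : u m 1 = (sum1 (sl m).1 0 : ℝ) := by
  rw [(sl_spec m).1, ev_one]

def tm : List ℚ → ℕ → List ℚ
  | [], _ => []
  | c :: l, k => (c * (k + 1)) :: tm l (k + 1)

theorem ev_tm (l : List ℚ) (k : ℕ) (x : ℝ) : ev (tm l k) (k + 1) x = x * ev l k x := by
  induction l generalizing k with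
  | nil => simp [tm, ev]
  | cons a l ih =>
    simp only [tm, ev]
    rw [ih, Nat.factorial_succ]
    push_cast
    have : (k.factorial : ℝ) ≠ 0 := by positivity
    have : (k:ℝ) + 1 ≠ 0 := by positivity
    field_simp
    ring

theorem int_tv (m : ℕ) (s : ℝ) : (∫ t in (0:ℝ)..s, t * v m t) = ev (tm (sl m).2 0) 2 s := by
  have : (fun t => t * v m t) = ev (tm (sl m).2 0) 1 := by
    funext t; rw [ev_tm, (sl_spec m).2]
  rw [this, ev_int, ev_zero, sub_zero]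

theorem u1_1 : u 1 1 = 1 := by
  rw [u_one, show sum1 (sl 1).1 0 = (1 : ℚ) from by decide +kernel]; norm_num

theorem u1_2 : u 2 1 = 1 := by
  rw [u_one, show sum1 (sl 2).1 0 = (1 : ℚ) from by decide +kernel]; norm_num

theorem u1_3 : u 3 1 = 5 / 6 := by
  rw [u_one, show sum1 (sl 3).1 0 = (5 / 6 : ℚ) from by decide +kernel]; norm_num

theorem u1_4 : u 4 1 = 17 / 24 := by
  rw [u_one, show sum1 (sl 4).1 0 = (17 / 24 : ℚ) from by decide +kernel]; norm_num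

theorem u1_5 : u 5 1 = 7 / 12 := by
  rw [u_one, show sum1 (sl 5).1 0 = (7 / 12 : ℚ) from by decide +kernel]; norm_num

theorem u1_6 : u 6 1 = 349 / 720 := by
  rw [u_one, show sum1 (sl 6).1 0 = (349 / 720 : ℚ) from by decide +kernel]; norm_num

theorem u1_7 : u 7 1 = 2017 / 5040 := by
  rw [u_one, show sum1 (sl 7).1 0 = (2017 / 5040 : ℚ) from by decide +kernel]; norm_num

theorem u1_8 : u 8 1 = 6679 / 20160 := by
  rw [u_one, show sum1 (sl 8).1 0 = (6679 / 20160 : ℚ) from by decide +kernel]; norm_num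

theorem u1_9 : u 9 1 = 99377 / 362880 := by
  rw [u_one, show sum1 (sl 9).1 0 = (99377 / 362880 : ℚ) from by decide +kernel]; norm_num

theorem u1_10 : u 10 1 = 822041 / 3628800 := by
  rw [u_one, show sum1 (sl 10).1 0 = (822041 / 3628800 : ℚ) from by decide +kernel]; norm_num

theorem u1_11 : u 11 1 = 48553 / 259200 := by
  rw [u_one, show sum1 (sl 11).1 0 = (48553 / 259200 : ℚ) from by decide +kernel]; norm_num

theorem tv_1 (s : ℝ) : (∫ t in (0:ℝ)..s, t * v 1 t) = (1 / 2) * s ^ 2 + (-1 / 3) * s ^ 3 := by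
  rw [int_tv, show tm (sl 1).2 0 = [1, (-2)] from by decide +kernel]
  norm_num [ev, Nat.factorial]
  try ring

theorem tv_2 (s : ℝ) : (∫ t in (0:ℝ)..s, t * v 2 t) = (1 / 4) * s ^ 2 + (-1 / 8) * s ^ 4 := by
  rw [int_tv, show tm (sl 2).2 0 = [(1 / 2), 0, (-3)] from by decide +kernel]
  norm_num [ev, Nat.factorial]
  try ring

theorem tv_3 (s : ℝ) : (∫ t in (0:ℝ)..s, t * v 3 t) = (1 / 4) * s ^ 2 + (-1 / 8) * s ^ 4 := by
  rw [int_tv, show tm (sl 3).2 0 = [(1 / 2), 0, (-3), 0] from by decide +kernel]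
  norm_num [ev, Nat.factorial]
  try ring

theorem tv_4 (s : ℝ) : (∫ t in (0:ℝ)..s, t * v 4 t) = (3 / 16) * s ^ 2 + (-1 / 16) * s ^ 4 + (-1 / 30) * s ^ 5 + (1 / 144) * s ^ 6 := by
  rw [int_tv, show tm (sl 4).2 0 = [(3 / 8), 0, (-3 / 2), (-4), 5] from by decide +kernel]
  norm_num [ev, Nat.factorial]
  try ring

theorem tv_5 (s : ℝ) : (∫ t in (0:ℝ)..s, t * v 5 t) = (13 / 80) * s ^ 2 + (-1 / 16) * s ^ 4 + (-1 / 60) * s ^ 5 + (1 / 840) * s ^ 7 := by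
  rw [int_tv, show tm (sl 5).2 0 = [(13 / 40), 0, (-3 / 2), (-2), 0, 6] from by decide +kernel]
  norm_num [ev, Nat.factorial]
  try ring

theorem tv_6 (s : ℝ) : (∫ t in (0:ℝ)..s, t * v 6 t) = (21 / 160) * s ^ 2 + (-3 / 64) * s ^ 4 + (-1 / 60) * s ^ 5 + (1 / 840) * s ^ 7 := by
  rw [int_tv, show tm (sl 6).2 0 = [(21 / 80), 0, (-9 / 8), (-2), 0, 6, 0] from by decide +kernel]
  norm_num [ev, Nat.factorial]
  try ring

theorem tv_7 (s : ℝ) : (∫ t in (0:ℝ)..s, t * v 7 t) = (123 / 1120) * s ^ 2 + (-13 / 320) * s ^ 4 + (-1 / 80) * s ^ 5 + (1 / 1680) * s ^ 7 + (1 / 5760) * s ^ 8 + (-1 / 45360) * s ^ 9 := by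
  rw [int_tv, show tm (sl 7).2 0 = [(123 / 560), 0, (-39 / 40), (-3 / 2), 0, 3, 7, (-8)] from by decide +kernel]
  norm_num [ev, Nat.factorial]
  try ring

/-- the normalised combinations -/
noncomputable def WG (a : ℝ) (r s : ℕ) (j : ℕ) (x : ℝ) : ℝ := (-1) ^ j * (a * u (j + s + r) x - u (j + s) x)
noncomputable def DG (a : ℝ) (r s : ℕ) (j : ℕ) (x : ℝ) : ℝ := (-1) ^ (j + 1) * (a * v (j + s + r) x - v (j + s) x)

theorem alt_comb (a : ℝ) (r s : ℕ) : Alt (WG a r s) (DG a r s) where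
  cW m := by
    have := u_cont (m + s + r)
    have := u_cont (m + s)
    unfold WG; fun_prop
  cD m := by
    have := v_cont (m + s + r)
    have := v_cont (m + s)
    unfold DG; fun_prop
  hW m x := by
    have h1 := u_cont (m + s + r)
    have h2 := u_cont (m + s)
    have h3 := v_cont (m + s + r)
    have h4 := v_cont (m + s)
    have e : (fun t => DG a r s m t - WG a r s m t) = fun t => (-1) ^ (m + 1) *
        (a * (u (m + s + r) t + v (m + s + r) t) - (u (m + s) t + v (m + s) t)) := by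
      funext t; unfold DG WG; ring
    rw [e, intervalIntegral.integral_const_mul, int_sub (by fun_prop) (by fun_prop),
      intervalIntegral.integral_const_mul, ← u_succ, ← u_succ]
    unfold WG
    rw [show m + 1 + s + r = m + s + r + 1 by ring, show m + 1 + s = m + s + 1 by ring]
  hD m x := by
    have h1 := u_cont (m + s + r)
    have h2 := u_cont (m + s)
    unfold WG
    rw [intervalIntegral.integral_const_mul, int_sub (by fun_prop) (by fun_prop),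
      intervalIntegral.integral_const_mul, ← v_succ, ← v_succ]
    unfold DG
    rw [show m + 1 + s + r = m + s + r + 1 by ring, show m + 1 + s = m + s + 1 by ring]
    ring

/-- the functional on the original orbit -/
noncomputable def L0 (m : ℕ) : ℝ := (∫ x in (0:ℝ)..1, ue x * u m x) + ∫ x in (0:ℝ)..1, de x * v m x

theorem Lf_comb (a : ℝ) (r s j : ℕ) :
    Lf (WG a r s) (DG a r s) j = (-1) ^ j * (a * L0 (j + s + r) - L0 (j + s)) := by
  have h1 := u_cont (j + s + r)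
  have h2 := u_cont (j + s)
  have h3 := v_cont (j + s + r)
  have h4 := v_cont (j + s)
  have h5 := ue_cont
  have h6 := de_cont
  unfold Lf WG DG L0
  have e1 : (fun x => ue x * ((-1) ^ j * (a * u (j + s + r) x - u (j + s) x))) =
      fun x => (-1) ^ j * (a * (ue x * u (j + s + r) x) - ue x * u (j + s) x) := by funext x; ring
  have e2 : (fun x => de x * ((-1) ^ (j + 1) * (a * v (j + s + r) x - v (j + s) x))) =
      fun x => (-1) ^ (j + 1) * (a * (de x * v (j + s + r) x) - de x * v (j + s) x) := by funext x; ring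
  rw [e1, e2, intervalIntegral.integral_const_mul, intervalIntegral.integral_const_mul,
    int_sub (by fun_prop) (by fun_prop), int_sub (by fun_prop) (by fun_prop),
    intervalIntegral.integral_const_mul, intervalIntegral.integral_const_mul]
  ring

theorem L0_succ (m : ℕ) : rho * L0 (m + 1) = L0 m := by
  have h := Lf_succ (alt_comb 0 0 m) 0
  rw [Lf_comb, Lf_comb] at h
  have e1 : 0 + 1 + m = m + 1 := by ring
  have e2 : 0 + m = m := by ring
  simp only [e1, e2, zero_mul, zero_sub, zero_add, pow_one, pow_zero] at h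
  have := rho_pos.ne'
  field_simp at h
  linarith

theorem B_eq (a : ℝ) (r s j : ℕ) (x : ℝ) : (∫ t in (0:ℝ)..x, t * DG a r s j t) =
    (-1) ^ (j + 1) * (a * (∫ t in (0:ℝ)..x, t * v (j + s + r) t) - ∫ t in (0:ℝ)..x, t * v (j + s) t) := by
  have h3 := v_cont (j + s + r)
  have h4 := v_cont (j + s)
  unfold DG
  have e1 : (fun t => t * ((-1) ^ (j + 1) * (a * v (j + s + r) t - v (j + s) t))) =
      fun t => (-1) ^ (j + 1) * (a * (t * v (j + s + r) t) - t * v (j + s) t) := by funext x; ring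
  rw [e1, intervalIntegral.integral_const_mul, int_sub (by fun_prop) (by fun_prop),
    intervalIntegral.integral_const_mul]

theorem BG0 : ∀ s ∈ Icc (0:ℝ) 1, 0 ≤ ∫ t in (0:ℝ)..s, t * DG (rho) 1 1 0 t := by
  intro s hs
  obtain ⟨h0, h1⟩ := hs
  rw [B_eq]
  rw [show 0 + 1 + 1 = 2 from rfl, show 0 + 1 = 1 from rfl, tv_2, tv_1]
  obtain ⟨t, ht⟩ : ∃ t, t = 1 - s := ⟨_, rfl⟩
  obtain ⟨A, hA⟩ : ∃ A, A = 120921 / 100000 - rho := ⟨_, rfl⟩
  obtain ⟨B, hB⟩ : ∃ B, B = rho - 30229 / 25000 := ⟨_, rfl⟩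
  have t0 : 0 ≤ t := by linarith
  have A0 : 0 ≤ A := by have := rho_lt; norm_num at this ⊢; linarith
  have B0 : 0 ≤ B := by have := rho_gt; norm_num at this ⊢; linarith
  have key : 0 ≤ A * (19771 / 5 * s ^ 2 * t ^ 2 + 18626 / 15 * s ^ 3 * t ^ 1 + 9313 / 30 * s ^ 4 * t ^ 0) + B * (79079 / 20 * s ^ 2 * t ^ 2 + 37237 / 30 * s ^ 3 * t ^ 1 + 37237 / 120 * s ^ 4 * t ^ 0) := by positivity
  refine key.trans (le_of_eq ?_)
  rw [hA, hB, ht]
  ring

theorem BG1 : ∀ s ∈ Icc (0:ℝ) 1, 0 ≤ ∫ t in (0:ℝ)..s, t * DG (rho) 1 1 1 t := by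
  intro s hs
  obtain ⟨h0, h1⟩ := hs
  rw [B_eq]
  rw [show 1 + 1 + 1 = 3 from rfl, show 1 + 1 = 2 from rfl, tv_3, tv_2]
  obtain ⟨t, ht⟩ : ∃ t, t = 1 - s := ⟨_, rfl⟩
  obtain ⟨A, hA⟩ : ∃ A, A = 120921 / 100000 - rho := ⟨_, rfl⟩
  obtain ⟨B, hB⟩ : ∃ B, B = rho - 30229 / 25000 := ⟨_, rfl⟩
  have t0 : 0 ≤ t := by linarith
  have A0 : 0 ≤ A := by have := rho_lt; norm_num at this ⊢; linarith
  have B0 : 0 ≤ B := by have := rho_gt; norm_num at this ⊢; linarith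
  have key : 0 ≤ A * (5229 / 5 * s ^ 2 * t ^ 2 + 10458 / 5 * s ^ 3 * t ^ 1 + 5229 / 10 * s ^ 4 * t ^ 0) + B * (20921 / 20 * s ^ 2 * t ^ 2 + 20921 / 10 * s ^ 3 * t ^ 1 + 20921 / 40 * s ^ 4 * t ^ 0) := by positivity
  refine key.trans (le_of_eq ?_)
  rw [hA, hB, ht]
  ring

theorem BG2 : ∀ s ∈ Icc (0:ℝ) 1, 0 ≤ ∫ t in (0:ℝ)..s, t * DG (rho) 1 1 2 t := by
  intro s hs
  obtain ⟨h0, h1⟩ := hs
  rw [B_eq]
  rw [show 2 + 1 + 1 = 4 from rfl, show 2 + 1 = 3 from rfl, tv_4, tv_3]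
  obtain ⟨t, ht⟩ : ∃ t, t = 1 - s := ⟨_, rfl⟩
  obtain ⟨A, hA⟩ : ∃ A, A = 120921 / 100000 - rho := ⟨_, rfl⟩
  obtain ⟨B, hB⟩ : ∃ B, B = rho - 30229 / 25000 := ⟨_, rfl⟩
  have t0 : 0 ≤ t := by linarith
  have A0 : 0 ≤ A := by have := rho_lt; norm_num at this ⊢; linarith
  have B0 : 0 ≤ B := by have := rho_gt; norm_num at this ⊢; linarith
  have key : 0 ≤ A * (9313 / 20 * s ^ 2 * t ^ 4 + 9313 / 5 * s ^ 3 * t ^ 3 + 36107 / 20 * s ^ 4 * t ^ 2 + 103741 / 150 * s ^ 5 * t ^ 1 + 103741 / 900 * s ^ 6 * t ^ 0) + B * (37237 / 80 * s ^ 2 * t ^ 4 + 37237 / 20 * s ^ 3 * t ^ 3 + 144343 / 80 * s ^ 4 * t ^ 2 + 138203 / 200 * s ^ 5 * t ^ 1 + 138203 / 1200 * s ^ 6 * t ^ 0) := by positivity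
  refine key.trans (le_of_eq ?_)
  rw [hA, hB, ht]
  ring

theorem BK0 : ∀ s ∈ Icc (0:ℝ) 1, 0 ≤ ∫ t in (0:ℝ)..s, t * DG (rho ^ 2) 2 3 0 t := by
  intro s hs
  obtain ⟨h0, h1⟩ := hs
  rw [B_eq]
  rw [show 0 + 3 + 2 = 5 from rfl, show 0 + 3 = 3 from rfl, tv_5, tv_3]
  obtain ⟨t, ht⟩ : ∃ t, t = 1 - s := ⟨_, rfl⟩
  obtain ⟨A, hA⟩ : ∃ A, A = 73109 / 50000 - rho ^ 2 := ⟨_, rfl⟩
  obtain ⟨B, hB⟩ : ∃ B, B = rho ^ 2 - 146207 / 100000 := ⟨_, rfl⟩
  have t0 : 0 ≤ t := by linarith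
  have A0 : 0 ≤ A := by have := rho_sq_lt; norm_num at this ⊢; linarith
  have B0 : 0 ≤ B := by have := rho_sq_gt; norm_num at this ⊢; linarith
  have key : 0 ≤ A * (99309 / 880 * s ^ 2 * t ^ 5 + 99309 / 176 * s ^ 3 * t ^ 4 + 144825 / 176 * s ^ 4 * t ^ 3 + 1143413 / 2640 * s ^ 5 * t ^ 2 + 119303 / 1320 * s ^ 6 * t ^ 1 + 119303 / 9240 * s ^ 7 * t ^ 0) + B * (49583 / 440 * s ^ 2 * t ^ 5 + 49583 / 88 * s ^ 3 * t ^ 4 + 72275 / 88 * s ^ 4 * t ^ 3 + 569831 / 1320 * s ^ 5 * t ^ 2 + 59261 / 660 * s ^ 6 * t ^ 1 + 59261 / 4620 * s ^ 7 * t ^ 0) := by positivity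
  refine key.trans (le_of_eq ?_)
  rw [hA, hB, ht]
  ring

theorem BK1 : ∀ s ∈ Icc (0:ℝ) 1, 0 ≤ ∫ t in (0:ℝ)..s, t * DG (rho ^ 2) 2 3 1 t := by
  intro s hs
  obtain ⟨h0, h1⟩ := hs
  rw [B_eq]
  rw [show 1 + 3 + 2 = 6 from rfl, show 1 + 3 = 4 from rfl, tv_6, tv_4]
  obtain ⟨t, ht⟩ : ∃ t, t = 1 - s := ⟨_, rfl⟩
  obtain ⟨A, hA⟩ : ∃ A, A = 73109 / 50000 - rho ^ 2 := ⟨_, rfl⟩
  obtain ⟨B, hB⟩ : ∃ B, B = rho ^ 2 - 146207 / 100000 := ⟨_, rfl⟩
  have t0 : 0 ≤ t := by linarith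
  have A0 : 0 ≤ A := by have := rho_sq_lt; norm_num at this ⊢; linarith
  have B0 : 0 ≤ B := by have := rho_sq_gt; norm_num at this ⊢; linarith
  have key : 0 ≤ A * (70347 / 1760 * s ^ 2 * t ^ 5 + 70347 / 352 * s ^ 3 * t ^ 4 + 242767 / 704 * s ^ 4 * t ^ 3 + 1114521 / 3520 * s ^ 5 * t ^ 2 + 4281523 / 31680 * s ^ 6 * t ^ 1 + 4281523 / 221760 * s ^ 7 * t ^ 0) + B * (35289 / 880 * s ^ 2 * t ^ 5 + 35289 / 176 * s ^ 3 * t ^ 4 + 121829 / 352 * s ^ 4 * t ^ 3 + 1677881 / 5280 * s ^ 5 * t ^ 2 + 2148401 / 15840 * s ^ 6 * t ^ 1 + 2148401 / 110880 * s ^ 7 * t ^ 0) := by positivity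
  refine key.trans (le_of_eq ?_)
  rw [hA, hB, ht]
  ring

theorem BK2 : ∀ s ∈ Icc (0:ℝ) 1, 0 ≤ ∫ t in (0:ℝ)..s, t * DG (rho ^ 2) 2 3 2 t := by
  intro s hs
  obtain ⟨h0, h1⟩ := hs
  rw [B_eq]
  rw [show 2 + 3 + 2 = 7 from rfl, show 2 + 3 = 5 from rfl, tv_7, tv_5]
  obtain ⟨t, ht⟩ : ∃ t, t = 1 - s := ⟨_, rfl⟩
  obtain ⟨A, hA⟩ : ∃ A, A = 73109 / 50000 - rho ^ 2 := ⟨_, rfl⟩
  obtain ⟨B, hB⟩ : ∃ B, B = rho ^ 2 - 146207 / 100000 := ⟨_, rfl⟩
  have t0 : 0 ≤ t := by linarith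
  have A0 : 0 ≤ A := by have := rho_sq_lt; norm_num at this ⊢; linarith
  have B0 : 0 ≤ B := by have := rho_sq_gt; norm_num at this ⊢; linarith
  have key : 0 ≤ A * (216539 / 12320 * s ^ 2 * t ^ 7 + 216539 / 1760 * s ^ 3 * t ^ 6 + 239985 / 704 * s ^ 4 * t ^ 5 + 5161019 / 10560 * s ^ 5 * t ^ 4 + 1033709 / 2640 * s ^ 6 * t ^ 3 + 1094377 / 6160 * s ^ 7 * t ^ 2 + 3903017 / 88704 * s ^ 8 * t ^ 1 + 3903017 / 798336 * s ^ 9 * t ^ 0) + B * (107593 / 6160 * s ^ 2 * t ^ 7 + 107593 / 880 * s ^ 3 * t ^ 6 + 119195 / 352 * s ^ 4 * t ^ 5 + 2561353 / 5280 * s ^ 5 * t ^ 4 + 512383 / 1320 * s ^ 6 * t ^ 3 + 1624697 / 9240 * s ^ 7 * t ^ 2 + 1928579 / 44352 * s ^ 8 * t ^ 1 + 1928579 / 399168 * s ^ 9 * t ^ 0) := by positivity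
  refine key.trans (le_of_eq ?_)
  rw [hA, hB, ht]
  ring

end Pool.Agent.Q277.DDs
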