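import Pool.Agent.Q277.DDs.Cone

set_option autoImplicit false

namespace Pool.Agent.Q277.DDs

open intervalIntegral MeasureTheory Set Real

/-- an orbit of the (sign-normalised) transfer operator -/
structure Alt (W D : ℕ → ℝ → ℝ) : Prop where
  cW : ∀ m, Continuous (W m)
  cD : ∀ m, Continuous (D m)
  hW : ∀ m x, W (m + 1) x = ∫ t in (0:ℝ)..x, (D m t - W m t)
  hD : ∀ m x, D (m + 1) x = ∫ t in x..(1:ℝ), W m t

variable {W D : ℕ → ℝ → ℝ}

noncomputable def Lf (W D : ℕ → ℝ → ℝ) (m : ℕ) : ℝ :=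
  (∫ x in (0:ℝ)..1, ue x * W m x) - ∫ x in (0:ℝ)..1, de x * D m x

theorem De_zero : De 0 = 0 := by simp [De, ue_zero, de_zero]

theorem int_de (t : ℝ) : (∫ x in (0:ℝ)..t, de x) = De t := by
  rw [integral_eq_sub_of_hasDerivAt (fun x _ => De_der x) (ii de_cont 0 t), De_zero, sub_zero]

theorem int_ue (t : ℝ) : (∫ x in t..(1:ℝ), ue x) = de t / rho := by
  have h : ∀ x ∈ uIcc t 1, HasDerivAt (fun x => -(de x / rho)) (ue x) x := by
    intro x _
    have := ((de_der x).div_const rho).neg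
    have e : ue x = -(-(rho * ue x) / rho) := by field_simp [rho_pos.ne']
    rw [e]; exact this
  rw [integral_eq_sub_of_hasDerivAt h (ii ue_cont t 1), de_one]
  ring

theorem Lf_succ (h : Alt W D) (m : ℕ) : Lf W D (m + 1) = -(Lf W D m) / rho := by
  have cW := h.cW m
  have cD := h.cD m
  have e1 : (∫ x in (0:ℝ)..1, ue x * W (m + 1) x) =
      ∫ t in (0:ℝ)..1, (D m t - W m t) * (de t / rho) := by
    have : (fun x => ue x * W (m + 1) x) = fun x => ue x * ∫ t in (0:ℝ)..x, (D m t - W m t) := by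
      funext x; rw [h.hW]
    rw [this, ← swap (F := fun t => D m t - W m t) (g := ue) (cD.sub cW) ue_cont]
    congr 1; funext t; rw [int_ue]
  have e2 : (∫ x in (0:ℝ)..1, de x * D (m + 1) x) = ∫ t in (0:ℝ)..1, W m t * De t := by
    have : (fun x => de x * D (m + 1) x) = fun x => de x * ∫ t in x..(1:ℝ), W m t := by
      funext x; rw [h.hD]
    rw [this, swap de_cont cW]
    congr 1; funext t; rw [int_de]
  unfold Lf
  rw [e1, e2]
  have cu := ue_cont
  have cd := de_cont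
  have cDe := De_cont
  have e3 : (∫ t in (0:ℝ)..1, (D m t - W m t) * (de t / rho)) =
      (1 / rho) * ((∫ t in (0:ℝ)..1, de t * D m t) - ∫ t in (0:ℝ)..1, de t * W m t) := by
    rw [← int_sub (by fun_prop) (by fun_prop), ← intervalIntegral.integral_const_mul]
    congr 1; funext t; ring
  have e4 : (∫ t in (0:ℝ)..1, W m t * De t) =
      (1 / rho) * ((∫ t in (0:ℝ)..1, ue t * W m t) - ∫ t in (0:ℝ)..1, de t * W m t) := by
    rw [← int_sub (by fun_prop) (by fun_prop), ← intervalIntegral.integral_const_mul]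
    congr 1; funext t; unfold De; ring
  rw [e3, e4]
  ring

theorem Lf_zero (h : Alt W D) (h0 : Lf W D 0 = 0) (m : ℕ) : Lf W D m = 0 := by
  induction m with
  | zero => exact h0
  | succ m ih => rw [Lf_succ h, ih]; simp

theorem W_der (h : Alt W D) (m : ℕ) (x : ℝ) : HasDerivAt (W (m + 1)) (D m x - W m x) x := by
  have e : W (m + 1) = fun x => ∫ t in (0:ℝ)..x, (D m t - W m t) := funext (h.hW m)
  rw [e]; exact der_right ((h.cD m).sub (h.cW m)) 0 x

theorem D_der (h : Alt W D) (m : ℕ) (x : ℝ) : HasDerivAt (D (m + 1)) (-W m x) x := by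
  have e : D (m + 1) = fun x => ∫ t in x..(1:ℝ), W m t := funext (h.hD m)
  rw [e]; exact der_left (h.cW m) 1 x

theorem W_at0 (h : Alt W D) (m : ℕ) : W (m + 1) 0 = 0 := by rw [h.hW, integral_same]
theorem D_at1 (h : Alt W D) (m : ℕ) : D (m + 1) 1 = 0 := by rw [h.hD, integral_same]

/-- the second derivative -/
theorem W_der2 (h : Alt W D) (m : ℕ) (x : ℝ) :
    HasDerivAt (fun y => D (m + 1) y - W (m + 1) y) (-(D m x)) x := by
  have := (D_der h m x).sub (W_der h m x)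
  have e : -(D m x) = -W m x - (D m x - W m x) := by ring
  rw [e]; exact this

/-- the scalar `e_m` is `W (m+1) 1` -/
theorem phi_eq (h : Alt W D) (m : ℕ) (x : ℝ) :
    W (m + 2) x - x * (D (m + 1) x - W (m + 1) x) = ∫ t in (0:ℝ)..x, t * D m t := by
  have hd : ∀ y ∈ uIcc 0 x, HasDerivAt (fun y => W (m + 2) y - y * (D (m + 1) y - W (m + 1) y))
      (y * D m y) y := by
    intro y _
    have h1 := (W_der h (m + 1) y).sub ((hasDerivAt_id y).mul (W_der2 h m y))
    have e : y * D m y = (D (m + 1) y - W (m + 1) y) -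
        (1 * (D (m + 1) y - W (m + 1) y) + id y * -(D m y)) := by simp only [id]; ring
    rw [e]; exact h1
  have c := h.cD m
  rw [integral_eq_sub_of_hasDerivAt hd (ii (by fun_prop) 0 x)]
  simp [W_at0 h]

theorem star (h : Alt W D) {m : ℕ} (hB : ∀ s ∈ Icc (0:ℝ) 1, 0 ≤ ∫ t in (0:ℝ)..s, t * D m t) :
    ∀ x y, 0 ≤ x → x ≤ y → y ≤ 1 → W (m + 2) y * x ≤ W (m + 2) x * y := by
  intro x y hx hxy hy
  rcases hx.eq_or_lt with h0 | h0
  · rw [← h0, W_at0 h (m + 1)]; simp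
  have hd : ∀ z, 0 < z → HasDerivAt (fun z => W (m + 2) z / z)
      (((D (m + 1) z - W (m + 1) z) * z - W (m + 2) z * 1) / z ^ 2) z := fun z hz =>
    (W_der h (m + 1) z).div (hasDerivAt_id z) hz.ne'
  have hanti : AntitoneOn (fun z => W (m + 2) z / z) (Icc x y) := by
    apply antitoneOn_of_deriv_nonpos (convex_Icc x y)
    · intro z hz
      exact (hd z (h0.trans_le hz.1)).continuousAt.continuousWithinAt
    · intro z hz
      rw [interior_Icc] at hz
      exact (hd z (h0.trans hz.1)).differentiableAt.differentiableWithinAt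
    · intro z hz
      rw [interior_Icc] at hz
      have hz0 : 0 < z := h0.trans hz.1
      rw [(hd z hz0).deriv]
      apply div_nonpos_of_nonpos_of_nonneg _ (by positivity)
      have h1 := phi_eq h m z
      have h2 := hB z ⟨hz0.le, hz.2.le.trans hy⟩
      linarith
  have h1 := hanti (left_mem_Icc.2 hxy) (right_mem_Icc.2 hxy) hxy
  simp only at h1
  have hy0 : 0 < y := h0.trans_le hxy
  rw [div_le_div_iff₀ hy0 h0] at h1
  exact h1

theorem conc (h : Alt W D) {m : ℕ} (hD : ∀ x ∈ Icc (0:ℝ) 1, 0 ≤ D m x) :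
    ConcaveOn ℝ (Icc (0:ℝ) 1) (W (m + 2)) := by
  have hder : deriv (W (m + 2)) = fun x => D (m + 1) x - W (m + 1) x :=
    funext fun x => (W_der h (m + 1) x).deriv
  apply AntitoneOn.concaveOn_of_deriv (convex_Icc 0 1)
  · exact (h.cW _).continuousOn
  · exact fun x _ => (W_der h (m + 1) x).differentiableAt.differentiableWithinAt
  · rw [hder]
    apply antitoneOn_of_deriv_nonpos (convex_Icc 0 1 |>.interior)
    · exact fun x _ => (W_der2 h m x).continuousAt.continuousWithinAt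
    · exact fun x _ => (W_der2 h m x).differentiableAt.differentiableWithinAt
    · intro x hx
      rw [(W_der2 h m x).deriv]
      rw [interior_interior, interior_Icc] at hx
      linarith [hD x ⟨hx.1.le, hx.2.le⟩]

/-- lower bound of `W` from the star property -/
theorem W_ge (h : Alt W D) {m : ℕ} (hB : ∀ s ∈ Icc (0:ℝ) 1, 0 ≤ ∫ t in (0:ℝ)..s, t * D m t)
    {x : ℝ} (hx : x ∈ Icc (0:ℝ) 1) : W (m + 2) 1 * x ≤ W (m + 2) x := by
  have := star h hB x 1 hx.1 hx.2 le_rfl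
  linarith

theorem D_ge (h : Alt W D) {m : ℕ} (hB : ∀ s ∈ Icc (0:ℝ) 1, 0 ≤ ∫ t in (0:ℝ)..s, t * D m t)
    (he : 0 ≤ W (m + 2) 1) {x : ℝ} (hx : x ∈ Icc (0:ℝ) 1) : 0 ≤ D (m + 3) x := by
  rw [h.hD]
  refine integral_nonneg hx.2 (fun t ht => ?_)
  have h1 := W_ge h hB (x := t) ⟨hx.1.trans ht.1, ht.2⟩
  have := mul_nonneg he (hx.1.trans ht.1)
  linarith

theorem B_of_D {f : ℝ → ℝ} (hD : ∀ x ∈ Icc (0:ℝ) 1, 0 ≤ f x) :
    ∀ s ∈ Icc (0:ℝ) 1, 0 ≤ ∫ t in (0:ℝ)..s, t * f t := by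
  intro s hs
  refine integral_nonneg hs.1 (fun t ht => ?_)
  exact mul_nonneg ht.1 (hD t ⟨ht.1, ht.2.trans hs.2⟩)

/-- the scalar step -/
theorem scalar (h : Alt W D) (hL : Lf W D 0 = 0) {m : ℕ}
    (hB : ∀ s ∈ Icc (0:ℝ) 1, 0 ≤ ∫ t in (0:ℝ)..s, t * D m t)
    (hD : ∀ x ∈ Icc (0:ℝ) 1, 0 ≤ D (m + 1) x)
    (h1 : 0 < W (m + 2) 1) (h2 : 0 < W (m + 3) 1) : 0 < W (m + 5) 1 := by
  have cW := fun k => h.cW k
  have cD := fun k => h.cD k
  have cu := ue_cont
  have cDe := De_cont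
  have hV0 : ∀ x ∈ Icc (0:ℝ) 1, 0 ≤ W (m + 2) x := fun x hx => by
    have := W_ge h hB hx
    have := mul_nonneg h1.le hx.1
    linarith
  have hconc := conc h hD
  have hWge : ∀ x ∈ Icc (0:ℝ) 1, W (m + 3) 1 * x ≤ W (m + 3) x := fun x hx =>
    W_ge h (B_of_D hD) hx
  have hW0 : ∀ x ∈ Icc (0:ℝ) 1, 0 ≤ W (m + 3) x := fun x hx => by
    have := hWge x hx
    have := mul_nonneg h2.le hx.1
    linarith
  have i1 := I1 (h.cW (m + 3)) hconc hW0
  have i2 := I2 (h.cW (m + 2)) (star h hB) hV0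
  -- the functional
  have hL3 := Lf_zero h hL (m + 3)
  have e2 : (∫ x in (0:ℝ)..1, de x * D (m + 3) x) = ∫ t in (0:ℝ)..1, W (m + 2) t * De t := by
    have : (fun x => de x * D (m + 3) x) = fun x => de x * ∫ t in x..(1:ℝ), W (m + 2) t := by
      funext x; rw [h.hD]
    rw [this, swap de_cont (h.cW _)]
    congr 1; funext t; rw [int_de]
  unfold Lf at hL3
  rw [e2] at hL3
  -- the identity for the scalar
  have e3 : W (m + 5) 1 = (∫ x in (0:ℝ)..1, W (m + 3) x) -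
      ∫ x in (0:ℝ)..1, W (m + 2) x * (x - x ^ 2 / 2) := by
    rw [h.hW, int_sub (h.cD _) (h.cW _)]
    have a1 : (∫ x in (0:ℝ)..1, D (m + 4) x) = ∫ x in (0:ℝ)..1, x * W (m + 3) x := by
      have : (fun x => D (m + 4) x) = fun x => (1:ℝ) * ∫ t in x..(1:ℝ), W (m + 3) t := by
        funext x; rw [h.hD, one_mul]
      rw [this, swap (F := fun _ => (1:ℝ)) continuous_const (h.cW _)]
      congr 1; funext t
      rw [intervalIntegral.integral_const]; simp; ring
    have a2 : (∫ x in (0:ℝ)..1, W (m + 4) x) =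
        ∫ x in (0:ℝ)..1, (D (m + 3) x - W (m + 3) x) * (1 - x) := by
      have : (fun x => W (m + 4) x) = fun x => (1:ℝ) * ∫ t in (0:ℝ)..x, (D (m + 3) t - W (m + 3) t) := by
        funext x; rw [h.hW, one_mul]
      rw [this, ← swap (F := fun t => D (m + 3) t - W (m + 3) t) (g := fun _ => (1:ℝ))
        ((h.cD _).sub (h.cW _)) continuous_const]
      congr 1; funext t
      rw [intervalIntegral.integral_const]; simp
    have a3 : (∫ x in (0:ℝ)..1, (1 - x) * D (m + 3) x) =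
        ∫ x in (0:ℝ)..1, W (m + 2) x * (x - x ^ 2 / 2) := by
      have : (fun x => (1 - x) * D (m + 3) x) = fun x => (1 - x) * ∫ t in x..(1:ℝ), W (m + 2) t := by
        funext x; rw [h.hD]
      rw [this, swap (F := fun x => 1 - x) (by fun_prop) (h.cW _)]
      congr 1; funext t
      have hd : ∀ y ∈ uIcc 0 t, HasDerivAt (fun x : ℝ => x - x ^ 2 / 2) (1 - y) y := by
        intro y _
        have e2 : HasDerivAt (fun x : ℝ => x ^ 2 / 2) y y := by
          simpa using (hasDerivAt_pow 2 y).div_const 2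
        exact (hasDerivAt_id y).sub e2
      rw [integral_eq_sub_of_hasDerivAt hd (ii (by fun_prop) 0 t)]
      simp
    have a4 : (∫ x in (0:ℝ)..1, (D (m + 3) x - W (m + 3) x) * (1 - x)) =
        (∫ x in (0:ℝ)..1, (1 - x) * D (m + 3) x) -
          ((∫ x in (0:ℝ)..1, W (m + 3) x) - ∫ x in (0:ℝ)..1, x * W (m + 3) x) := by
      have c3 := cW (m + 3)
      have c4 := cD (m + 3)
      rw [← int_sub (by fun_prop) (by fun_prop), ← int_sub (by fun_prop) (by fun_prop)]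
      congr 1; funext x; ring
    rw [a1, a2, a4, a3]; ring
  -- positivity of the integral of W
  have hpos : 0 < ∫ x in (0:ℝ)..1, W (m + 3) x := by
    have h5 : (∫ x in (0:ℝ)..1, W (m + 3) 1 * x) ≤ ∫ x in (0:ℝ)..1, W (m + 3) x :=
      int_mono (by fun_prop) (cW _) hWge
    rw [intervalIntegral.integral_const_mul] at h5
    norm_num at h5
    linarith
  have hk := pe_c0
  rw [e3]
  nlinarith [mul_pos (sub_pos.2 hk) hpos]

/-- the main induction -/
theorem main_ind (h : Alt W D) (hL : Lf W D 0 = 0)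
    (B0 : ∀ s ∈ Icc (0:ℝ) 1, 0 ≤ ∫ t in (0:ℝ)..s, t * D 0 t)
    (B1 : ∀ s ∈ Icc (0:ℝ) 1, 0 ≤ ∫ t in (0:ℝ)..s, t * D 1 t)
    (B2 : ∀ s ∈ Icc (0:ℝ) 1, 0 ≤ ∫ t in (0:ℝ)..s, t * D 2 t)
    (h1 : 0 < W 2 1) (h2 : 0 < W 3 1) (h3 : 0 < W 4 1) (h4 : 0 < W 5 1) (h5 : 0 < W 6 1) (m : ℕ) :
    0 < W (m + 2) 1 ∧ ∀ s ∈ Icc (0:ℝ) 1, 0 ≤ ∫ t in (0:ℝ)..s, t * D m t := by
  induction m using Nat.strong_induction_on with
  | _ m ih =>
    have hDm : ∀ k, k < m → ∀ x ∈ Icc (0:ℝ) 1, 0 ≤ D (k + 3) x := fun k hk x hx =>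
      D_ge h (ih k hk).2 (ih k hk).1.le hx
    match m, ih, hDm with
    | 0, _, _ => exact ⟨h1, B0⟩
    | 1, _, _ => exact ⟨h2, B1⟩
    | 2, _, _ => exact ⟨h3, B2⟩
    | 3, _, hDm => exact ⟨h4, B_of_D (hDm 0 (by omega))⟩
    | 4, _, hDm => exact ⟨h5, B_of_D (hDm 1 (by omega))⟩
    | k + 5, ih, hDm =>
      refine ⟨?_, B_of_D (hDm (k + 2) (by omega))⟩
      have a := scalar h hL (m := k + 2) (ih (k + 2) (by omega)).2 (hDm k (by omega))
        (ih (k + 2) (by omega)).1 (ih (k + 3) (by omega)).1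
      exact a

theorem u_pos (m : ℕ) {x : ℝ} (h0 : 0 < x) (h1 : x ≤ 1) : 0 < u m x := by
  induction m generalizing x with
  | zero => rw [u_zero]; exact zero_lt_one
  | succ m ih =>
    rw [u_succ]
    refine intervalIntegral_pos_of_pos_on (ii ((u_cont m).add (v_cont m)) 0 x) (fun t ht => ?_) h0
    have a := ih ht.1 (ht.2.le.trans h1)
    have b := (st_nonneg m t ⟨ht.1.le, ht.2.le.trans h1⟩).2
    linarith

/-- positivity of the pairings -/
theorem pair_pos (h : Alt W D) {j : ℕ} (hB : ∀ s ∈ Icc (0:ℝ) 1, 0 ≤ ∫ t in (0:ℝ)..s, t * D j t)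
    (he : 0 < W (j + 1) 1 + W (j + 2) 1) (q : ℕ) :
    0 < ∫ x in (0:ℝ)..1, D j x * v (q + 1) (1 - x) := by
  have cD := h.cD j
  have cu := u_cont q
  have cu' : Continuous (fun t => u q (1 - t)) := by fun_prop
  have e1 : (∫ x in (0:ℝ)..1, D j x * v (q + 1) (1 - x)) =
      ∫ t in (0:ℝ)..1, u q (1 - t) * ∫ s in t..(1:ℝ), D j s := by
    rw [swap (F := fun t => u q (1 - t)) (g := D j) cu' cD]
    congr 1; funext x
    rw [refl_right (u q) x, v_succ]
  have cG := cont_left cD 1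
  have hP : ∀ x : ℝ, (∫ t in (0:ℝ)..x, ∫ s in t..(1:ℝ), D j s) = W (j + 2) x + x * W (j + 1) 1 := by
    intro x
    have hG : ∀ t, (∫ s in t..(1:ℝ), D j s) = (D (j + 1) t - W (j + 1) t) + W (j + 1) 1 := by
      intro t
      have hd : ∀ y ∈ uIcc t 1, HasDerivAt (fun y => -(D (j + 1) y - W (j + 1) y)) (D j y) y := by
        intro y _
        have := (W_der2 h j y).neg
        rw [neg_neg] at this
        exact this
      rw [integral_eq_sub_of_hasDerivAt hd (ii cD t 1), D_at1 h]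
      ring
    have hd : ∀ y ∈ uIcc 0 x, HasDerivAt (fun y => W (j + 2) y + y * W (j + 1) 1)
        (∫ s in y..(1:ℝ), D j s) y := by
      intro y _
      rw [hG]
      have h2 : HasDerivAt (fun y : ℝ => y * W (j + 1) 1) (W (j + 1) 1) y := by
        simpa using (hasDerivAt_id y).mul_const (W (j + 1) 1)
      exact (W_der h (j + 1) y).add h2
    rw [integral_eq_sub_of_hasDerivAt hd (ii cG 0 x)]
    simp [W_at0 h]
  rw [e1]
  cases q with
  | zero =>
    have : (fun t => u 0 (1 - t) * ∫ s in t..(1:ℝ), D j s) = fun t => ∫ s in t..(1:ℝ), D j s := by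
      funext t; rw [u_zero]; simp
    rw [this, hP 1]
    linarith
  | succ q =>
    have cm : Continuous (fun s => u q (1 - s) + v q (1 - s)) := by
      have := u_cont q
      have := v_cont q
      fun_prop
    have e2 : (fun t => u (q + 1) (1 - t) * ∫ s in t..(1:ℝ), D j s) =
        fun t => (∫ s in t..(1:ℝ), D j s) * ∫ s in t..(1:ℝ), (u q (1 - s) + v q (1 - s)) := by
      funext t
      rw [u_succ, ← refl_left (fun s => u q s + v q s) t]
      ring
    rw [e2, swap (F := fun t => ∫ s in t..(1:ℝ), D j s) (g := fun s => u q (1 - s) + v q (1 - s)) cG cm]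
    have e3 : (fun x => (u q (1 - x) + v q (1 - x)) * ∫ t in (0:ℝ)..x, ∫ s in t..(1:ℝ), D j s) =
        fun x => (u q (1 - x) + v q (1 - x)) * (W (j + 2) x + x * W (j + 1) 1) := by
      funext x; rw [hP]
    rw [e3]
    have cW := h.cW (j + 2)
    refine intervalIntegral_pos_of_pos_on (ii (cm.mul (by fun_prop)) 0 1) (fun x hx => ?_) zero_lt_one
    have a := u_pos q (x := 1 - x) (by linarith [hx.2]) (by linarith [hx.1])
    have b := (st_nonneg q (1 - x) ⟨by linarith [hx.2], by linarith [hx.1]⟩).2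
    have c := W_ge h hB (x := x) ⟨hx.1.le, hx.2.le⟩
    have d : 0 < W (j + 2) x + x * W (j + 1) 1 := by
      nlinarith [mul_pos he hx.1]
    exact mul_pos (by linarith) d

theorem pair_all (h : Alt W D) (hL : Lf W D 0 = 0)
    (B0 : ∀ s ∈ Icc (0:ℝ) 1, 0 ≤ ∫ t in (0:ℝ)..s, t * D 0 t)
    (B1 : ∀ s ∈ Icc (0:ℝ) 1, 0 ≤ ∫ t in (0:ℝ)..s, t * D 1 t)
    (B2 : ∀ s ∈ Icc (0:ℝ) 1, 0 ≤ ∫ t in (0:ℝ)..s, t * D 2 t)
    (h0 : 0 < W 1 1 + W 2 1)
    (h1 : 0 < W 2 1) (h2 : 0 < W 3 1) (h3 : 0 < W 4 1) (h4 : 0 < W 5 1) (h5 : 0 < W 6 1) (j q : ℕ) :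
    0 < ∫ x in (0:ℝ)..1, D j x * v (q + 1) (1 - x) := by
  have hm := main_ind h hL B0 B1 B2 h1 h2 h3 h4 h5
  refine pair_pos h (hm j).2 ?_ q
  cases j with
  | zero => exact h0
  | succ j => linarith [(hm j).1, (hm (j + 1)).1]

end Pool.Agent.Q277.DDs
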